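import Pool.Agent.Helper227.EN.Alg
import Pool.Agent.Helper227.Use
import Pool.Agent.TH752.AR.PA

/-!
Degrees of nonstandard models of completions of PA: definitions.
-/

set_option autoImplicit false

open FirstOrder FirstOrder.Language
open Pool.Agent.Helper227 Pool.Agent.Helper227.EN

namespace Pool.Agent.TH748.MU

/-- The pairing polynomial `(x + y)² + x` (it is injective). -/
def pr (x y : ℕ) : ℕ := (x + y) * (x + y) + x

/-- Gödel numbers of terms built with a function symbol. -/
def opc {l : ℕ} : AF l → (Fin l → ℕ) → ℕ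
  | .zero, _ => pr 1 0
  | .one, _ => pr 2 0
  | .add, v => pr 3 (pr (v 0) (v 1))
  | .mul, v => pr 4 (pr (v 0) (v 1))

/-- Gödel numbers of atomic formulas built with a relation symbol. -/
def rlc {l : ℕ} : AR l → (Fin l → ℕ) → ℕ
  | .lt, v => pr 7 (pr (v 0) (v 1))

/-- The Gödel number of a term (whose variables are bound variables). -/
def gt {k : ℕ} : LA.Term (Empty ⊕ Fin k) → ℕ
  | .var (.inl e) => e.elim
  | .var (.inr i) => pr 0 i
  | .func f ts => opc f (fun i => gt (ts i))

/-- The Gödel number of a formula. -/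
def gf : {k : ℕ} → LA.BoundedFormula Empty k → ℕ
  | _, .falsum => pr 5 0
  | _, .equal s t => pr 6 (pr (gt s) (gt t))
  | _, .rel R ts => rlc R (fun i => gt (ts i))
  | _, .imp f g => pr 8 (pr (gf f) (gf g))
  | _, .all f => pr 9 (gf f)

/-- `Hier true n φ`: `φ` is a `Σ_n` formula in prenex form, `Hier false n φ`: `φ` is a `Π_n` formula
in prenex form. (At most `n` blocks of quantifiers, with a quantifier-free matrix.) -/
inductive Hier : Bool → ℕ → {k : ℕ} → LA.BoundedFormula Empty k → Prop
  | qf {b : Bool} {n k : ℕ} {φ : LA.BoundedFormula Empty k} (h : φ.IsQF) : Hier b n φ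
  | ex {n k : ℕ} {φ : LA.BoundedFormula Empty (k + 1)} (h : Hier true (n + 1) φ) :
      Hier true (n + 1) φ.ex
  | all {n k : ℕ} {φ : LA.BoundedFormula Empty (k + 1)} (h : Hier false (n + 1) φ) :
      Hier false (n + 1) φ.all
  | next {b : Bool} {n k : ℕ} {φ : LA.BoundedFormula Empty k} (h : Hier (!b) n φ) :
      Hier b (n + 1) φ

/-- The set of Gödel numbers of the elements of `T_n = T ∩ Σ_n`. -/
noncomputable def Tn (T : LA.Theory) (n : ℕ) : ℕ → Bool := fun x =>
  open Classical in decide (∃ φ : LA.Sentence, Hier true n φ ∧ φ ∈ T ∧ gf φ = x)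

/-- The standard system: the sets of natural numbers which are the restriction to the standard
numbers of a set definable with parameters. -/
def SSy (M : Type) [LA.Structure M] : Set (ℕ → Bool) :=
  {X | ∃ S : Set M, (Set.univ : Set M).Definable₁ LA S ∧
    ∀ n : ℕ, X n = true ↔ (num n : LA.Term Empty).realize (default : Empty → M) ∈ S}

/-- `D` is a minimal upper bound (with respect to Turing reducibility) of the sets `X 0, X 1, ...`. -/
def IsMinUB (D : ℕ → Bool) (X : ℕ → ℕ → Bool) : Prop :=
  (∀ n, TLe (X n) D) ∧ ∀ E, (∀ n, TLe (X n) E) → TLe E D → TLe D E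

end Pool.Agent.TH748.MU
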