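import Pool.Agent.TH748.MU.Rel
import Pool.Agent.TH748.MU.Defs

/-!
Relations on the elements of a structure which are enumerable from its atomic diagram.
-/

set_option autoImplicit false
set_option linter.unusedSectionVars false

open FirstOrder FirstOrder.Language
open Pool.Agent.Helper227 Pool.Agent.Helper227.EN
open Pool.Agent.TH752

namespace Pool.Agent.TH748.MU

variable {M : Type} [LA.Structure M] [CommSemiring M] [LinearOrder M] [IsStrictOrderedRing M]
  [CanonicallyOrderedAdd M]

omit [IsStrictOrderedRing M] in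
/-- models of PA have induction for definable sets -/
theorem ari_of_pa [IsStrictOrderedRing M] (hc : Compat M) (h : M ⊨ PA) : AR.Ari LA M where
  dadd := by
    refine (AR.Dfn.fm (L := LA) (Term.equal (Term.var 0)
      (tadd (Term.var 1) (Term.var 2)))).congr fun v => ?_
    rw [Formula.realize_equal, AR.pa_tadd]
    simp only [Term.realize_var]
    rw [hc.add]
  dmul := by
    refine (AR.Dfn.fm (L := LA) (Term.equal (Term.var 0)
      (tmul (Term.var 1) (Term.var 2)))).congr fun v => ?_
    rw [Formula.realize_equal, AR.pa_tmul]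
    simp only [Term.realize_var]
    rw [hc.mul]
  disc := hc.disc
  ind := fun S hS h0 hs => AR.pa_ind_dfn h hS (by rw [hc.zero]; exact h0) (fun x hx => by
    rw [hc.add, hc.one]; exact hs x hx)

theorem dfn_of {A : Set M} {R : (ℕ → M) → Prop} (h : EN.Dfn R) : AR.Dfn LA A R := by
  obtain ⟨φ, hφ⟩ := h
  exact (AR.Dfn.fm φ).congr hφ

/-- `F` is a computable function with values in `M`, relative to the diagram of `b` -/
def EF (b : ℕ → M) {α : Type} [Primcodable α] (F : α → M) : Prop :=
  SR (Dg b) fun x : α × ℕ => b x.2 = F x.1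

section
variable (hc : Compat M) {b : ℕ → M} (hb : Function.Surjective b)
variable {α β : Type} [Primcodable α] [Primcodable β]

theorem sr_cd {p : α → Prop} {g : α → ℕ} (hg : Primrec g) (h : ∀ x, p x ↔ Dg b (g x) = true) :
    SR (Dg b) p := by
  refine ((SR.oracle (Dg b)).comp (f := fun x : α => (g x, true))
    (hg.pair (Primrec.const true))).of_eq fun x => ?_
  exact (h x).symm

theorem sr_cd' {p : α → Prop} {g : α → ℕ} (hg : Primrec g) (h : ∀ x, p x ↔ Dg b (g x) = false) :
    SR (Dg b) p := by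
  refine ((SR.oracle (Dg b)).comp (f := fun x : α => (g x, false))
    (hg.pair (Primrec.const false))).of_eq fun x => ?_
  exact (h x).symm

theorem primrec_cd (c : ℕ) {i j l : α → ℕ} (hi : Primrec i) (hj : Primrec j) (hl : Primrec l) :
    Primrec fun x => cd c (i x) (j x) (l x) :=
  Primrec₂.natPair.comp (Primrec.const c) (Primrec₂.natPair.comp hi (Primrec₂.natPair.comp hj hl))

include hc

theorem dg_add (i j l : ℕ) : Dg b (cd 0 i j l) = true ↔ b i + b j = b l := by
  simp only [Dg, cd, Nat.unpair_pair]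
  simp [hc.add]

theorem dg_mul (i j l : ℕ) : Dg b (cd 1 i j l) = true ↔ b i * b j = b l := by
  simp only [Dg, cd, Nat.unpair_pair]
  simp [hc.mul]

theorem dg_lt (i j l : ℕ) : Dg b (cd 2 i j l) = true ↔ b i < b j := by
  simp only [Dg, cd, Nat.unpair_pair]
  simp [hc.lt]

theorem sr_add {i j l : α → ℕ} (hi : Primrec i) (hj : Primrec j) (hl : Primrec l) :
    SR (Dg b) fun x => b (i x) + b (j x) = b (l x) :=
  sr_cd (primrec_cd 0 hi hj hl) fun _ => (dg_add hc _ _ _).symm

theorem sr_mul {i j l : α → ℕ} (hi : Primrec i) (hj : Primrec j) (hl : Primrec l) :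
    SR (Dg b) fun x => b (i x) * b (j x) = b (l x) :=
  sr_cd (primrec_cd 1 hi hj hl) fun _ => (dg_mul hc _ _ _).symm

theorem sr_lt0 {i j : α → ℕ} (hi : Primrec i) (hj : Primrec j) :
    SR (Dg b) fun x => b (i x) < b (j x) :=
  sr_cd (primrec_cd 2 hi hj (Primrec.const 0)) fun _ => (dg_lt hc _ _ _).symm

theorem sr_nlt0 {i j : α → ℕ} (hi : Primrec i) (hj : Primrec j) :
    SR (Dg b) fun x => ¬ b (i x) < b (j x) :=
  sr_cd' (primrec_cd 2 hi hj (Primrec.const 0)) fun _ => by
    rw [← dg_lt hc _ _ 0]; simp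

include hb

theorem sr_eq0 {i j : α → ℕ} (hi : Primrec i) (hj : Primrec j) :
    SR (Dg b) fun x => b (i x) = b (j x) := by
  obtain ⟨z, hz⟩ := hb 0
  refine (sr_add hc hi (Primrec.const z) hj).of_eq fun x => ?_
  rw [hz, add_zero]

theorem ef_ind {g : α → ℕ} (hg : Primrec g) : EF b fun x => b (g x) :=
  sr_eq0 hc hb Primrec.snd (hg.comp Primrec.fst)

theorem ef_const (m : M) : EF b fun _ : α => m := by
  obtain ⟨i, hi⟩ := hb m
  refine (sr_eq0 hc hb (α := α × ℕ) Primrec.snd (Primrec.const i)).of_eq fun x => ?_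
  rw [hi]

omit hb hc in
theorem EF.comp {F : β → M} {g : α → β} (hF : EF b F) (hg : Primrec g) : EF b fun x => F (g x) :=
  SR.comp hF (f := fun x : α × ℕ => (g x.1, x.2)) ((hg.comp Primrec.fst).pair Primrec.snd)

omit hc in
/-- quantification over the elements of the structure -/
theorem sr_exM {P : α → M → Prop} (hP : SR (Dg b) fun x : α × ℕ => P x.1 (b x.2)) :
    SR (Dg b) fun a => ∃ y, P a y := by
  refine (SR.ex (p := fun a i => P a (b i)) hP).of_eq fun a => ?_
  constructor
  · rintro ⟨i, hi⟩; exact ⟨_, hi⟩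
  · rintro ⟨y, hy⟩
    obtain ⟨i, rfl⟩ := hb y
    exact ⟨i, hy⟩

omit hc in
/-- a relation with computable values substituted -/
theorem sr_subst {F : α → M} (hF : EF b F) {P : α → M → Prop}
    (hP : SR (Dg b) fun x : α × ℕ => P x.1 (b x.2)) : SR (Dg b) fun a => P a (F a) := by
  refine (sr_exM hb (P := fun a y => y = F a ∧ P a y) (SR.and hF hP)).of_eq fun a => ?_
  constructor
  · rintro ⟨y, rfl, h⟩; exact h
  · intro h; exact ⟨_, rfl, h⟩

theorem ef_op {op : M → M → M}
    (ho : ∀ {γ : Type} [Primcodable γ] {i j l : γ → ℕ}, Primrec i → Primrec j → Primrec l →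
      SR (Dg b) fun x => op (b (i x)) (b (j x)) = b (l x))
    {F G : α → M} (hF : EF b F) (hG : EF b G) : EF b fun x => op (F x) (G x) := by
  have h1 : SR (Dg b) fun x : α × ℕ => op (F x.1) (G x.1) = b x.2 := by
    refine sr_subst hb (F := fun x : α × ℕ => F x.1) (hF.comp Primrec.fst)
      (P := fun x y => op y (G x.1) = b x.2) ?_
    refine sr_subst hb (F := fun x : (α × ℕ) × ℕ => G x.1.1)
      (hG.comp (Primrec.fst.comp Primrec.fst))
      (P := fun x y => op (b x.2) y = b x.1.2) ?_
    exact ho (Primrec.snd.comp Primrec.fst) Primrec.snd (Primrec.snd.comp (Primrec.fst.comp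
      Primrec.fst))
  exact h1.of_eq fun x => eq_comm

theorem ef_add {F G : α → M} (hF : EF b F) (hG : EF b G) : EF b fun x => F x + G x :=
  ef_op hc hb (op := fun x y => x + y) (fun hi hj hl => sr_add hc hi hj hl) hF hG

theorem ef_mul {F G : α → M} (hF : EF b F) (hG : EF b G) : EF b fun x => F x * G x :=
  ef_op hc hb (op := fun x y => x * y) (fun hi hj hl => sr_mul hc hi hj hl) hF hG

theorem sr_eq {F G : α → M} (hF : EF b F) (hG : EF b G) : SR (Dg b) fun x => F x = G x := by
  refine sr_subst hb hF (P := fun x y => y = G x) ?_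
  exact hG

theorem sr_lt {F G : α → M} (hF : EF b F) (hG : EF b G) : SR (Dg b) fun x => F x < G x := by
  refine sr_subst hb hF (P := fun x y => y < G x) ?_
  refine sr_subst hb (F := fun x : α × ℕ => G x.1) (hG.comp Primrec.fst)
    (P := fun x y => b x.2 < y) ?_
  exact sr_lt0 hc (Primrec.snd.comp Primrec.fst) Primrec.snd

theorem sr_le {F G : α → M} (hF : EF b F) (hG : EF b G) : SR (Dg b) fun x => F x ≤ G x := by
  refine sr_subst hb hF (P := fun x y => y ≤ G x) ?_
  refine sr_subst hb (F := fun x : α × ℕ => G x.1) (hG.comp Primrec.fst)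
    (P := fun x y => b x.2 ≤ y) ?_
  exact (sr_nlt0 hc Primrec.snd (Primrec.snd.comp Primrec.fst)).of_eq fun x => not_lt

theorem sr_dvd {F G : α → M} (hF : EF b F) (hG : EF b G) : SR (Dg b) fun x => F x ∣ G x := by
  refine sr_exM hb (P := fun x y => G x = F x * y) ?_
  exact sr_eq hc hb (hG.comp Primrec.fst) (ef_mul hc hb (hF.comp Primrec.fst)
    (ef_ind hc hb Primrec.snd))

/-- the numerals -/
theorem ef_cast {g : α → ℕ} (hg : Primrec g) : EF b fun x => ((g x : ℕ) : M) := by
  have key : EF b fun n : ℕ => (n : M) := by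
    obtain ⟨o, ho⟩ := hb 1
    obtain ⟨z, hz⟩ := hb 0
    have h1 : SR (Dg b) fun x : ℕ × ℕ => ∃ L : List ℕ, (b (L.getD 0 0) = b z ∧
        b (L.getD x.1 0) = b x.2) ∧ ∀ i < x.1, b (L.getD i 0) + b o = b (L.getD (i + 1) 0) := by
      refine SR.ex (p := fun (x : ℕ × ℕ) (L : List ℕ) => (b (L.getD 0 0) = b z ∧
        b (L.getD x.1 0) = b x.2) ∧ ∀ i < x.1, b (L.getD i 0) + b o = b (L.getD (i + 1) 0))
        (SR.and (SR.and ?_ ?_) ?_)
      · exact sr_eq0 hc hb ((Primrec.list_getD 0).comp Primrec.snd (Primrec.const 0))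
          (Primrec.const z)
      · exact sr_eq0 hc hb ((Primrec.list_getD 0).comp Primrec.snd
          (Primrec.fst.comp Primrec.fst)) (Primrec.snd.comp Primrec.fst)
      · refine SR.all_lt (α := (ℕ × ℕ) × List ℕ) (f := fun y => y.1.1)
          (p := fun y i => b (y.2.getD i 0) + b o = b (y.2.getD (i + 1) 0)) ?_
          (Primrec.fst.comp Primrec.fst)
        exact sr_add hc ((Primrec.list_getD 0).comp (Primrec.snd.comp Primrec.fst) Primrec.snd)
          (Primrec.const o) ((Primrec.list_getD 0).comp (Primrec.snd.comp Primrec.fst)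
            (Primrec.succ.comp Primrec.snd))
    refine h1.of_eq ?_
    rintro ⟨n, j⟩
    simp only
    constructor
    · rintro ⟨L, ⟨h2, h3⟩, h4⟩
      have h5 : ∀ i, i ≤ n → b (L.getD i 0) = (i : M) := by
        intro i
        induction i with
        | zero => intro _; rw [h2, hz]; simp
        | succ i ih =>
          intro hi
          rw [← h4 i (by omega), ih (by omega), ho]; push_cast; rfl
      rw [← h3, h5 n le_rfl]
    · intro h
      choose c hcc using fun i : ℕ => hb (i : M)
      have hL : ∀ i, i ≤ n → ((List.range (n + 1)).map c).getD i 0 = c i := by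
        intro i hi
        simp [List.getD, Nat.lt_succ_of_le hi]
      refine ⟨(List.range (n + 1)).map c, ⟨?_, ?_⟩, fun i hi => ?_⟩
      · rw [hL 0 (Nat.zero_le _), hcc, hz]; simp
      · rw [hL n le_rfl, hcc, h]
      · rw [hL i (by omega), hL (i + 1) (by omega), hcc, hcc, ho]; push_cast; rfl
  exact key.comp hg

end

end Pool.Agent.TH748.MU
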