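import Pool.Agent.TH748.MU.Defs

/-!
The Gödel numbering is injective.
-/

set_option autoImplicit false

open FirstOrder FirstOrder.Language
open Pool.Agent.Helper227 Pool.Agent.Helper227.EN

namespace Pool.Agent.TH748.MU

theorem pr_inj {x y x' y' : ℕ} (h : pr x y = pr x' y') : x = x' ∧ y = y' := by
  unfold pr at h
  have h1 : x + y = x' + y' := by
    rcases lt_trichotomy (x + y) (x' + y') with h2 | h2 | h2
    · nlinarith
    · exact h2
    · nlinarith
  rw [h1] at h
  omega

theorem gt_inj {k : ℕ} (s t : LA.Term (Empty ⊕ Fin k)) (h : gt s = gt t) : s = t := by
  induction s generalizing t with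
  | var v =>
    rcases v with v | i
    · exact v.elim
    · cases t with
      | var w =>
        rcases w with w | j
        · exact w.elim
        · have := (pr_inj h).2
          rw [Fin.ext this]
      | func f ts =>
        cases f <;> exact absurd (pr_inj h).1 (by norm_num)
  | func f ss ih =>
    cases t with
    | var w =>
      rcases w with w | j
      · exact w.elim
      · cases f <;> exact absurd (pr_inj h).1 (by norm_num)
    | func g ts =>
      cases f with
      | zero =>
        cases g with
        | zero => congr 1; exact Subsingleton.elim _ _
        | one => exact absurd (pr_inj h).1 (by norm_num)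
        | add => exact absurd (pr_inj h).1 (by norm_num)
        | mul => exact absurd (pr_inj h).1 (by norm_num)
      | one =>
        cases g with
        | zero => exact absurd (pr_inj h).1 (by norm_num)
        | one => congr 1; exact Subsingleton.elim _ _
        | add => exact absurd (pr_inj h).1 (by norm_num)
        | mul => exact absurd (pr_inj h).1 (by norm_num)
      | add =>
        cases g with
        | zero => exact absurd (pr_inj h).1 (by norm_num)
        | one => exact absurd (pr_inj h).1 (by norm_num)
        | add =>
          obtain ⟨h1, h2⟩ := pr_inj (pr_inj h).2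
          congr 1
          funext i
          fin_cases i
          · exact ih 0 _ h1
          · exact ih 1 _ h2
        | mul => exact absurd (pr_inj h).1 (by norm_num)
      | mul =>
        cases g with
        | zero => exact absurd (pr_inj h).1 (by norm_num)
        | one => exact absurd (pr_inj h).1 (by norm_num)
        | add => exact absurd (pr_inj h).1 (by norm_num)
        | mul =>
          obtain ⟨h1, h2⟩ := pr_inj (pr_inj h).2
          congr 1
          funext i
          fin_cases i
          · exact ih 0 _ h1
          · exact ih 1 _ h2

/-- the Gödel numbering of the formulas is injective -/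
theorem gf_inj {k : ℕ} (φ ψ : LA.BoundedFormula Empty k) (h : gf φ = gf ψ) : φ = ψ := by
  induction φ with
  | falsum =>
    cases ψ with
    | falsum => rfl
    | equal s t => exact absurd (pr_inj h).1 (by norm_num)
    | rel R ts => cases R; exact absurd (pr_inj h).1 (by norm_num)
    | imp f g => exact absurd (pr_inj h).1 (by norm_num)
    | all f => exact absurd (pr_inj h).1 (by norm_num)
  | equal s t =>
    cases ψ with
    | falsum => exact absurd (pr_inj h).1 (by norm_num)
    | equal s' t' =>
      obtain ⟨h1, h2⟩ := pr_inj (pr_inj h).2
      rw [gt_inj _ _ h1, gt_inj _ _ h2]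
    | rel R ts => cases R; exact absurd (pr_inj h).1 (by norm_num)
    | imp f g => exact absurd (pr_inj h).1 (by norm_num)
    | all f => exact absurd (pr_inj h).1 (by norm_num)
  | rel R ss =>
    cases R
    cases ψ with
    | falsum => exact absurd (pr_inj h).1 (by norm_num)
    | equal s' t' => exact absurd (pr_inj h).1 (by norm_num)
    | rel R' ts =>
      cases R'
      obtain ⟨h1, h2⟩ := pr_inj (pr_inj h).2
      congr 1
      funext i
      fin_cases i
      · exact gt_inj _ _ h1
      · exact gt_inj _ _ h2
    | imp f g => exact absurd (pr_inj h).1 (by norm_num)
    | all f => exact absurd (pr_inj h).1 (by norm_num)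
  | imp f g ihf ihg =>
    cases ψ with
    | falsum => exact absurd (pr_inj h).1 (by norm_num)
    | equal s' t' => exact absurd (pr_inj h).1 (by norm_num)
    | rel R ts => cases R; exact absurd (pr_inj h).1 (by norm_num)
    | imp f' g' =>
      obtain ⟨h1, h2⟩ := pr_inj (pr_inj h).2
      rw [ihf _ h1, ihg _ h2]
    | all f => exact absurd (pr_inj h).1 (by norm_num)
  | all f ih =>
    cases ψ with
    | falsum => exact absurd (pr_inj h).1 (by norm_num)
    | equal s' t' => exact absurd (pr_inj h).1 (by norm_num)
    | rel R ts => cases R; exact absurd (pr_inj h).1 (by norm_num)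
    | imp f g => exact absurd (pr_inj h).1 (by norm_num)
    | all f' => rw [ih _ (pr_inj h).2]

end Pool.Agent.TH748.MU
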