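import Pool.Agent.TH748.MU.Uni

/-!
Coding into the columns.
-/

set_option autoImplicit false

open Encodable
open Pool.Agent.Helper227 Pool.Agent.Helper227.EN
open Nat.Partrec (Code)

namespace Pool.Agent.TH748.MU

theorem pre_eq_ofFn (G : ℕ → Bool) (l : ℕ) : pre G l = List.ofFn (fun i : Fin l => G i) := by
  refine List.ext_getElem (by simp) fun i h1 h2 => ?_
  rw [getElem_pre]
  simp

/-- compactness of the Cantor space -/
theorem compact_str (K : List Bool → Prop)
    (h : ∀ l, ∃ G : ℕ → Bool, ∀ l' ≤ l, ¬ K (pre G l')) : ∃ G : ℕ → Bool, ∀ l, ¬ K (pre G l) := by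
  let C : ℕ → Set (ℕ → Bool) := fun l => {G | ∀ l' ≤ l, ¬ K (pre G l')}
  have hcl : ∀ l, IsClosed (C l) := by
    intro l
    have h1 : C l = ⋂ l' : ℕ, ⋂ _ : l' ≤ l, {G | ¬ K (pre G l')} := by
      ext G; simp [C]
    rw [h1]
    refine isClosed_iInter fun l' => isClosed_iInter fun _ => ?_
    have h2 : {G : ℕ → Bool | ¬ K (pre G l')} =
        (fun (G : ℕ → Bool) (i : Fin l') => G i) ⁻¹' {v | ¬ K (List.ofFn v)} := by
      ext G
      simp only [Set.mem_preimage, Set.mem_ofPred_eq, pre_eq_ofFn]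
    rw [h2]
    exact (isClosed_discrete _).preimage (continuous_pi fun i => continuous_apply _)
  have h3 := IsCompact.nonempty_iInter_of_sequence_nonempty_isCompact_isClosed C
    (fun l G hG l' hl' => hG l' (by omega)) (fun l => h l) (hcl 0).isCompact hcl
  obtain ⟨G, hG⟩ := h3
  rw [Set.mem_iInter] at hG
  exact ⟨G, fun l => hG l l le_rfl⟩

/-- the coding positions -/
def pos (c : Code) (k : ℕ) (τ r : List Bool) : ℕ := Nat.pair (encode c) (encode (k, τ, r))

/-- the conditions of stage `k`, for strings -/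
def VV (c : Code) (k : ℕ) (τ r x z : List Bool) : Prop :=
  (Bad z ∨ ¬ mstr k z = x) ∨
  (∃ i < τ.length, Nat.pair 0 i < z.length ∧ ¬ z.getD (Nat.pair 0 i) false = τ.getD i false) ∨
  ∃ m < r.length, Nat.pair (k + 1) (pos c k τ (r.take m)) < z.length ∧
    ¬ z.getD (Nat.pair (k + 1) (pos c k τ (r.take m))) false = r.getD m false

theorem primrec_VV : PrimrecPred fun x : Code × ℕ × List Bool × List Bool × List Bool × List Bool =>
    VV x.1 x.2.1 x.2.2.1 x.2.2.2.1 x.2.2.2.2.1 x.2.2.2.2.2 := by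
  unfold VV
  have h2 : Primrec fun x : Code × ℕ × List Bool × List Bool × List Bool × List Bool => x.2.1 :=
    Primrec.fst.comp Primrec.snd
  have h3 : Primrec fun x : Code × ℕ × List Bool × List Bool × List Bool × List Bool => x.2.2.1 :=
    Primrec.fst.comp (Primrec.snd.comp Primrec.snd)
  have h4 : Primrec fun x : Code × ℕ × List Bool × List Bool × List Bool × List Bool => x.2.2.2.1 :=
    Primrec.fst.comp (Primrec.snd.comp (Primrec.snd.comp Primrec.snd))
  have h5 : Primrec fun x : Code × ℕ × List Bool × List Bool × List Bool × List Bool =>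
    x.2.2.2.2.1 := Primrec.fst.comp (Primrec.snd.comp (Primrec.snd.comp (Primrec.snd.comp
      Primrec.snd)))
  have h6 : Primrec fun x : Code × ℕ × List Bool × List Bool × List Bool × List Bool =>
    x.2.2.2.2.2 := Primrec.snd.comp (Primrec.snd.comp (Primrec.snd.comp (Primrec.snd.comp
      Primrec.snd)))
  refine PrimrecPred.or (PrimrecPred.or (primrec_Bad.comp h6) (PrimrecPred.not
    (Primrec.eq.comp (primrec_mstr.comp h2 h6) h5))) (PrimrecPred.or ?_ ?_)
  · refine PP.ex_lt (α := Code × ℕ × List Bool × List Bool × List Bool × List Bool)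
      (f := fun x => x.2.2.1.length)
      (p := fun x i => Nat.pair 0 i < x.2.2.2.2.2.length ∧
        ¬ x.2.2.2.2.2.getD (Nat.pair 0 i) false = x.2.2.1.getD i false) ?_
      (Primrec.list_length.comp h3)
    have ep : Primrec fun y : (Code × ℕ × List Bool × List Bool × List Bool × List Bool) × ℕ =>
      Nat.pair 0 y.2 := Primrec₂.natPair.comp (Primrec.const 0) Primrec.snd
    refine PrimrecPred.and (Primrec.nat_lt.comp ep (Primrec.list_length.comp
      (h6.comp Primrec.fst))) (PrimrecPred.not (Primrec.eq.comp ?_ ?_))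
    · exact (Primrec.list_getD false).comp (h6.comp Primrec.fst) ep
    · exact (Primrec.list_getD false).comp (h3.comp Primrec.fst) Primrec.snd
  · refine PP.ex_lt (α := Code × ℕ × List Bool × List Bool × List Bool × List Bool)
      (f := fun x => x.2.2.2.1.length)
      (p := fun x m => Nat.pair (x.2.1 + 1) (pos x.1 x.2.1 x.2.2.1 (x.2.2.2.1.take m)) <
        x.2.2.2.2.2.length ∧ ¬ x.2.2.2.2.2.getD (Nat.pair (x.2.1 + 1)
          (pos x.1 x.2.1 x.2.2.1 (x.2.2.2.1.take m))) false = x.2.2.2.1.getD m false) ?_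
      (Primrec.list_length.comp h4)
    have et : Primrec fun y : (Code × ℕ × List Bool × List Bool × List Bool × List Bool) × ℕ =>
      y.1.2.2.2.1.take y.2 := Primrec.list_take.comp Primrec.snd (h4.comp Primrec.fst)
    have ep : Primrec fun y : (Code × ℕ × List Bool × List Bool × List Bool × List Bool) × ℕ =>
      Nat.pair (y.1.2.1 + 1) (pos y.1.1 y.1.2.1 y.1.2.2.1 (y.1.2.2.2.1.take y.2)) := by
      refine Primrec₂.natPair.comp (Primrec.succ.comp (h2.comp Primrec.fst)) ?_
      unfold pos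
      exact Primrec₂.natPair.comp (Primrec.encode.comp (Primrec.fst.comp Primrec.fst))
        (Primrec.encode.comp ((h2.comp Primrec.fst).pair ((h3.comp Primrec.fst).pair et)))
    refine PrimrecPred.and (Primrec.nat_lt.comp ep (Primrec.list_length.comp
      (h6.comp Primrec.fst))) (PrimrecPred.not (Primrec.eq.comp ?_ ?_))
    · exact (Primrec.list_getD false).comp (h6.comp Primrec.fst) ep
    · exact (Primrec.list_getD false).comp (h4.comp Primrec.fst) Primrec.snd

/-- the conditions without coding -/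
def Base (k : ℕ) (τ : List Bool) (M G : ℕ → Bool) : Prop :=
  (∀ s, ¬ Bad (pre G s)) ∧ mask k G = M ∧ ∀ i < τ.length, G (Nat.pair 0 i) = τ.getD i false

/-- the meaning of the conditions; `rr l` is the string used at level `l` -/
theorem VV_iff_gen (c : Code) (k : ℕ) (τ : List Bool) (rr : ℕ → List Bool)
    (M G : ℕ → Bool) :
    (∀ l, ¬ VV c k τ (rr l) (pre M l) (pre G l)) ↔ Base k τ M G ∧
      ∀ l, ∀ m < (rr l).length, Nat.pair (k + 1) (pos c k τ ((rr l).take m)) < l →
        G (Nat.pair (k + 1) (pos c k τ ((rr l).take m))) = (rr l).getD m false := by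
  constructor
  · intro h
    refine ⟨⟨fun s hs => h s (Or.inl (Or.inl hs)), ?_, ?_⟩, ?_⟩
    · funext z
      by_contra hne
      apply h (z + 1)
      refine Or.inl (Or.inr ?_)
      rw [mstr_pre]
      intro heq
      have h1 : (pre (mask k G) (z + 1)).getD z false = (pre M (z + 1)).getD z false := by rw [heq]
      rw [pre_getD _ _ _ _ (Nat.lt_succ_self z), pre_getD _ _ _ _ (Nat.lt_succ_self z)] at h1
      exact hne h1
    · intro i hi
      by_contra hne
      apply h (Nat.pair 0 i + 1)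
      refine Or.inr (Or.inl ⟨i, hi, by simp, ?_⟩)
      rw [pre_getD _ _ _ _ (Nat.lt_succ_self _)]
      exact hne
    · intro l m hm hl
      by_contra hne
      apply h l
      refine Or.inr (Or.inr ⟨m, hm, by simpa using hl, ?_⟩)
      rw [pre_getD _ _ _ _ hl]
      exact hne
  · rintro ⟨⟨h1, h2, h3⟩, h4⟩ l ((hb | hx) | ⟨i, hi, hp, hne⟩ | ⟨m, hm, hp, hne⟩)
    · exact h1 l hb
    · apply hx
      rw [mstr_pre, h2]
    · rw [length_pre] at hp
      rw [pre_getD _ _ _ _ hp] at hne
      exact hne (h3 i hi)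
    · rw [length_pre] at hp
      rw [pre_getD _ _ _ _ hp] at hne
      exact hne (h4 l m hm hp)

theorem VV_fin (c : Code) (k : ℕ) (τ r : List Bool) (M G : ℕ → Bool) :
    (∀ l, ¬ VV c k τ r (pre M l) (pre G l)) ↔ Base k τ M G ∧
      ∀ m < r.length, G (Nat.pair (k + 1) (pos c k τ (r.take m))) = r.getD m false := by
  rw [VV_iff_gen c k τ (fun _ => r)]
  refine and_congr_right fun _ => ?_
  constructor
  · intro h m hm
    exact h _ m hm (Nat.lt_succ_self _)
  · intro h l m hm _
    exact h m hm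

theorem VV_inf (c : Code) (k : ℕ) (τ : List Bool) (R M G : ℕ → Bool) :
    (∀ l, ¬ VV c k τ (pre R l) (pre M l) (pre G l)) ↔ Base k τ M G ∧
      ∀ m, G (Nat.pair (k + 1) (pos c k τ (pre R m))) = R m := by
  rw [VV_iff_gen c k τ (fun l => pre R l)]
  refine and_congr_right fun _ => ?_
  constructor
  · intro h m
    let l := Nat.pair (k + 1) (pos c k τ (pre R m)) + m + 1
    have h1 := h l m (by simp only [length_pre, l]; omega)
    rw [take_pre _ _ _ (by simp only [l]; omega), pre_getD _ _ _ _ (by simp only [l]; omega)] at h1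
    exact h1 (by simp only [l]; omega)
  · intro h l m hm _
    simp only [length_pre] at hm
    rw [take_pre _ _ _ hm.le, pre_getD _ _ _ _ hm]
    exact h m

/-- emptiness of the class with one more coded bit is enumerable -/
def WW (x : List Bool × ℕ × Bool) : Prop :=
  ∃ p ∈ (decode (α := ℕ × List Bool × List Bool) (Nat.unpair x.2.1).2).toList,
    ∃ l < x.1.length + 1, ∀ m < 2 ^ l, ∃ l' < l + 1,
      VV (Denumerable.ofNat Code (Nat.unpair x.2.1).1) p.1 p.2.1 (p.2.2 ++ [x.2.2]) (x.1.take l')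
        ((pre (rpbit m) l).take l')

theorem primrec_WW : PrimrecPred WW := by
  unfold WW
  refine PP.ex_mem (α := List Bool × ℕ × Bool)
    (f := fun x => (decode (α := ℕ × List Bool × List Bool) (Nat.unpair x.2.1).2).toList)
    (p := fun x p => ∃ l < x.1.length + 1, ∀ m < 2 ^ l, ∃ l' < l + 1,
      VV (Denumerable.ofNat Code (Nat.unpair x.2.1).1) p.1 p.2.1 (p.2.2 ++ [x.2.2]) (x.1.take l')
        ((pre (rpbit m) l).take l')) ?_ ?_
  swap
  · exact Primrec.optionToList.comp (Primrec.decode.comp (Primrec.snd.comp (Primrec.unpair.comp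
      (Primrec.fst.comp Primrec.snd))))
  refine PP.ex_lt (α := (List Bool × ℕ × Bool) × (ℕ × List Bool × List Bool))
    (f := fun y => y.1.1.length + 1)
    (p := fun y l => ∀ m < 2 ^ l, ∃ l' < l + 1,
      VV (Denumerable.ofNat Code (Nat.unpair y.1.2.1).1) y.2.1 y.2.2.1 (y.2.2.2 ++ [y.1.2.2])
        (y.1.1.take l') ((pre (rpbit m) l).take l')) ?_
      (Primrec.succ.comp (Primrec.list_length.comp (Primrec.fst.comp Primrec.fst)))
  refine PP.all_lt (α := ((List Bool × ℕ × Bool) × (ℕ × List Bool × List Bool)) × ℕ)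
    (f := fun y => 2 ^ y.2)
    (p := fun y m => ∃ l' < y.2 + 1,
      VV (Denumerable.ofNat Code (Nat.unpair y.1.1.2.1).1) y.1.2.1 y.1.2.2.1
        (y.1.2.2.2 ++ [y.1.1.2.2]) (y.1.1.1.take l') ((pre (rpbit m) y.2).take l')) ?_
      (rp_primrec_pow.comp (Primrec.const 2) Primrec.snd)
  refine PP.ex_lt (α := (((List Bool × ℕ × Bool) × (ℕ × List Bool × List Bool)) × ℕ) × ℕ)
    (f := fun y => y.1.2 + 1)
    (p := fun y l' =>
      VV (Denumerable.ofNat Code (Nat.unpair y.1.1.1.2.1).1) y.1.1.2.1 y.1.1.2.2.1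
        (y.1.1.2.2.2 ++ [y.1.1.1.2.2]) (y.1.1.1.1.take l') ((pre (rpbit y.2) y.1.2).take l')) ?_
      (Primrec.succ.comp (Primrec.snd.comp Primrec.fst))
  have f0 : Primrec fun y : ((((List Bool × ℕ × Bool) × (ℕ × List Bool × List Bool)) × ℕ) × ℕ) × ℕ =>
    y.1.1.1.1 := Primrec.fst.comp (Primrec.fst.comp (Primrec.fst.comp Primrec.fst))
  have f1 : Primrec fun y : ((((List Bool × ℕ × Bool) × (ℕ × List Bool × List Bool)) × ℕ) × ℕ) × ℕ =>
    y.1.1.1.2 := Primrec.snd.comp (Primrec.fst.comp (Primrec.fst.comp Primrec.fst))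
  have f2 : Primrec fun y : ((((List Bool × ℕ × Bool) × (ℕ × List Bool × List Bool)) × ℕ) × ℕ) × ℕ =>
    y.1.1.2 := Primrec.snd.comp (Primrec.fst.comp Primrec.fst)
  have f3 : Primrec fun y : ((((List Bool × ℕ × Bool) × (ℕ × List Bool × List Bool)) × ℕ) × ℕ) × ℕ =>
    y.1.2 := Primrec.snd.comp Primrec.fst
  refine primrec_VV.comp (f := fun y : ((((List Bool × ℕ × Bool) ×
      (ℕ × List Bool × List Bool)) × ℕ) × ℕ) × ℕ =>
    (Denumerable.ofNat Code (Nat.unpair y.1.1.1.1.2.1).1, y.1.1.1.2.1, y.1.1.1.2.2.1,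
      y.1.1.1.2.2.2 ++ [y.1.1.1.1.2.2], y.1.1.1.1.1.take y.2, (pre (rpbit y.1.2) y.1.1.2).take y.2)) ?_
  refine Primrec.pair ?_ (Primrec.pair ?_ (Primrec.pair ?_ (Primrec.pair ?_ (Primrec.pair ?_ ?_))))
  · exact (Primrec.ofNat Code).comp (Primrec.fst.comp (Primrec.unpair.comp (Primrec.fst.comp
      (Primrec.snd.comp f0))))
  · exact Primrec.fst.comp f1
  · exact Primrec.fst.comp (Primrec.snd.comp f1)
  · exact Primrec.list_append.comp (Primrec.snd.comp (Primrec.snd.comp f1))
      (Primrec.list_cons.comp (Primrec.snd.comp (Primrec.snd.comp f0)) (Primrec.const []))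
  · exact Primrec.list_take.comp Primrec.snd (Primrec.fst.comp f0)
  · refine Primrec.list_take.comp Primrec.snd ?_
    refine Primrec.list_map (Primrec.list_range.comp f2) ?_
    exact rp_primrec_bit.comp (f3.comp Primrec.fst) Primrec.snd

theorem exists_c0 : ∃ c : Code, ∀ x, WW x ↔ ∃ r, hlt c r x := exists_hlt (S1.of_prim primrec_WW)

/-- the code of the coding procedure -/
noncomputable def c0 : Code := exists_c0.choose

theorem c0_spec : ∀ x, WW x ↔ ∃ r, hlt c0 r x := exists_c0.choose_spec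

theorem WW_iff (k : ℕ) (τ r : List Bool) (b : Bool) (M : ℕ → Bool) :
    (∃ s, WW (pre M s, pos c0 k τ r, b)) ↔
      ¬ ∃ G : ℕ → Bool, ∀ l, ¬ VV c0 k τ (r ++ [b]) (pre M l) (pre G l) := by
  have e1 : Denumerable.ofNat Code (Nat.unpair (pos c0 k τ r)).1 = c0 := by
    simp [pos]
  have e2 : (decode (α := ℕ × List Bool × List Bool) (Nat.unpair (pos c0 k τ r)).2) =
      some (k, τ, r) := by
    simp [pos]
  constructor
  · rintro ⟨s, p, hp, l, hl, h⟩ ⟨G, hG⟩
    simp only at hp hl h
    rw [e2] at hp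
    rw [e1] at h
    simp only [Option.toList_some, List.mem_singleton] at hp
    subst hp
    rw [length_pre] at hl
    obtain ⟨m, hm, hbits⟩ := rp_exists l G
    obtain ⟨l', hl', hV⟩ := h m hm
    have e3 : pre (rpbit m) l = pre G l := rp_pre_congr _ _ _ hbits
    rw [e3, take_pre _ _ _ (by omega), take_pre _ _ _ (by omega)] at hV
    exact hG l' hV
  · intro h
    have h1 : ∃ l, ∀ G : ℕ → Bool, ∃ l' ≤ l, VV c0 k τ (r ++ [b]) (pre M l') (pre G l') := by
      by_contra hcon
      push Not at hcon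
      apply h
      have h2 := compact_str (fun z => VV c0 k τ (r ++ [b]) (pre M z.length) z) (fun l => by
        obtain ⟨G, hG⟩ := hcon l
        exact ⟨G, fun l' hl' => by rw [length_pre]; exact hG l' hl'⟩)
      obtain ⟨G, hG⟩ := h2
      exact ⟨G, fun l => by have := hG l; rwa [length_pre] at this⟩
    obtain ⟨l, hl⟩ := h1
    refine ⟨l, (k, τ, r), ?_, l, by simp, fun m _ => ?_⟩
    · simp only; rw [e2]; simp
    · obtain ⟨l', hl', hV⟩ := hl (rpbit m)
      refine ⟨l', by omega, ?_⟩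
      simp only
      rw [e1, take_pre _ _ _ hl', take_pre _ _ _ hl']
      exact hV

/-- one more bit can be coded -/
theorem code_step (k : ℕ) (τ r : List Bool) (M : ℕ → Bool)
    (h : ∃ G : ℕ → Bool, ∀ l, ¬ VV c0 k τ r (pre M l) (pre G l)) (b : Bool) :
    ∃ G : ℕ → Bool, ∀ l, ¬ VV c0 k τ (r ++ [b]) (pre M l) (pre G l) := by
  by_contra hcon
  have h1 := (WW_iff k τ r b M).2 hcon
  have h2 : ∃ s b, WW (pre M s, pos c0 k τ r, b) := by
    obtain ⟨s, hs⟩ := h1
    exact ⟨s, b, hs⟩
  obtain ⟨b', hU, h3⟩ := UU_univ c0_spec (e := pos c0 k τ r) (by simp [pos]) h2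
  apply (WW_iff k τ r b' M).1 h3
  obtain ⟨G, hG⟩ := h
  rw [VV_fin] at hG
  refine ⟨G, ?_⟩
  rw [VV_fin]
  refine ⟨hG.1, fun m hm => ?_⟩
  rw [List.length_append, List.length_singleton] at hm
  rcases Nat.lt_or_ge m r.length with hm' | hm'
  · rw [List.take_append_of_le_length hm'.le, List.getD_append _ _ _ _ hm']
    exact hG.2 m hm'
  · have : m = r.length := by omega
    subst this
    rw [List.take_left, List.getD_append_right _ _ _ _ le_rfl]
    have h4 := ((bad_iff G).1 hG.1.1).1 k (pos c0 k τ r) b' (by rw [hG.1.2.1]; exact hU)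
    rw [h4]
    simp

/-- a whole set can be coded -/
theorem code_all (k : ℕ) (τ : List Bool) (M R : ℕ → Bool) (h : ∃ G : ℕ → Bool, Base k τ M G) :
    ∃ G : ℕ → Bool, ∀ l, ¬ VV c0 k τ (pre R l) (pre M l) (pre G l) := by
  have h1 : ∀ n, ∃ G : ℕ → Bool, ∀ l, ¬ VV c0 k τ (pre R n) (pre M l) (pre G l) := by
    intro n
    induction n with
    | zero =>
      obtain ⟨G, hG⟩ := h
      refine ⟨G, ?_⟩
      rw [VV_fin]
      exact ⟨hG, fun m hm => absurd hm (by simp)⟩
    | succ n ih =>
      rw [pre_succ]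
      exact code_step k τ _ M ih (R n)
  have h2 := compact_str (fun z => VV c0 k τ (pre R z.length) (pre M z.length) z) (fun n => by
    obtain ⟨G, hG⟩ := h1 n
    refine ⟨G, fun l' hl' => ?_⟩
    rw [length_pre]
    intro hV
    apply hG l'
    rcases hV with hV | hV | ⟨m, hm, hV⟩
    · exact Or.inl hV
    · exact Or.inr (Or.inl hV)
    · rw [length_pre] at hm
      rw [take_pre _ _ _ hm.le, pre_getD _ _ _ _ hm] at hV
      refine Or.inr (Or.inr ⟨m, by rw [length_pre]; omega, ?_⟩)
      have e1 : (pre R n).getD m false = R m := pre_getD _ _ _ _ (by omega)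
      rw [take_pre _ _ _ (by omega), e1]
      exact hV)
  obtain ⟨G, hG⟩ := h2
  exact ⟨G, fun l => by have := hG l; rwa [length_pre] at this⟩

end Pool.Agent.TH748.MU
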