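import Pool.Agent.TH748.MU.Cls

/-!
The construction of an upper bound below `D`.
-/

set_option autoImplicit false

open Encodable
open Pool.Agent.Helper227 Pool.Agent.Helper227.EN
open Nat.Partrec (Code)

namespace Pool.Agent.TH748.MU

/-- the conditions of the stages -/
def QQ (x : ℕ × List Bool × List Bool × List Bool) : Prop :=
  ∃ p ∈ (decode (α := ℕ × List Bool) x.1).toList, VV c0 p.1 p.2 x.2.2.1 (mstr p.1 x.2.1) x.2.2.2

theorem primrec_QQ : PrimrecPred QQ := by
  unfold QQ
  refine PP.ex_mem (α := ℕ × List Bool × List Bool × List Bool)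
    (f := fun x => (decode (α := ℕ × List Bool) x.1).toList)
    (p := fun x p => VV c0 p.1 p.2 x.2.2.1 (mstr p.1 x.2.1) x.2.2.2) ?_ ?_
  swap
  · exact Primrec.optionToList.comp (Primrec.decode.comp Primrec.fst)
  refine primrec_VV.comp (f := fun y : (ℕ × List Bool × List Bool × List Bool) × (ℕ × List Bool) =>
    (c0, y.2.1, y.2.2, y.1.2.2.1, mstr y.2.1 y.1.2.1, y.1.2.2.2)) ?_
  refine (Primrec.const _).pair ((Primrec.fst.comp Primrec.snd).pair
    ((Primrec.snd.comp Primrec.snd).pair (Primrec.pair ?_ (Primrec.pair ?_ ?_))))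
  · exact Primrec.fst.comp (Primrec.snd.comp (Primrec.snd.comp Primrec.fst))
  · exact primrec_mstr.comp (Primrec.fst.comp Primrec.snd) (Primrec.fst.comp
      (Primrec.snd.comp Primrec.fst))
  · exact Primrec.snd.comp (Primrec.snd.comp (Primrec.snd.comp Primrec.fst))

theorem QQ_iff (k : ℕ) (τ : List Bool) (X R G : ℕ → Bool) (l : ℕ) :
    QQ (encode (k, τ), pre X l, pre R l, pre G l) ↔
      VV c0 k τ (pre R l) (pre (mask k X) l) (pre G l) := by
  unfold QQ
  simp only [encodek, Option.toList_some, List.mem_singleton, exists_eq_left, mstr_pre]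

section seq
variable (R : ℕ → ℕ → Bool) (f : ℕ × ℕ × ℕ → ℕ)

/-- one step of the construction -/
def nx (k : ℕ) (x : ℕ × List Bool) : ℕ × List Bool :=
  (f (encode (k, x.2), x.1, k), x.2 ++ [R (f (encode (k, x.2), x.1, k)) (Nat.pair 0 k)])

/-- the sequence of the states -/
def st : ℕ → ℕ × List Bool
  | 0 => (0, [])
  | k + 1 => nx R f k (st k)

variable {R f}

theorem sr_nx {D : ℕ → Bool} (hR : SR D fun x : (ℕ × ℕ) × Bool => R x.1.1 x.1.2 = x.2)
    (hf : SR D (fun x : (ℕ × ℕ × ℕ) × ℕ => f x.1 = x.2)) :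
    SR D fun x : (ℕ × ℕ × List Bool) × ℕ × List Bool => nx R f x.1.1 x.1.2 = x.2 := by
  have h1 : SR D fun x : (ℕ × ℕ × List Bool) × ℕ × List Bool =>
      f (encode (x.1.1, x.1.2.2), x.1.2.1, x.1.1) = x.2.1 := by
    refine hf.comp (f := fun x : (ℕ × ℕ × List Bool) × ℕ × List Bool =>
      ((encode (x.1.1, x.1.2.2), x.1.2.1, x.1.1), x.2.1)) ?_
    refine Primrec.pair (Primrec.pair ?_ (Primrec.pair ?_ ?_)) (Primrec.fst.comp Primrec.snd)
    · exact Primrec.encode.comp ((Primrec.fst.comp Primrec.fst).pair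
        (Primrec.snd.comp (Primrec.snd.comp Primrec.fst)))
    · exact Primrec.fst.comp (Primrec.snd.comp Primrec.fst)
    · exact Primrec.fst.comp Primrec.fst
  have h2 : SR D fun x : (ℕ × ℕ × List Bool) × ℕ × List Bool =>
      ∃ v : Bool, R x.2.1 (Nat.pair 0 x.1.1) = v ∧ x.2.2 = x.1.2.2 ++ [v] := by
    refine SR.ex (p := fun (x : (ℕ × ℕ × List Bool) × ℕ × List Bool) (v : Bool) =>
      R x.2.1 (Nat.pair 0 x.1.1) = v ∧ x.2.2 = x.1.2.2 ++ [v]) (SR.and ?_ (SR.of_prim ?_))
    · refine hR.comp (f := fun y : ((ℕ × ℕ × List Bool) × ℕ × List Bool) × Bool =>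
        ((y.1.2.1, Nat.pair 0 y.1.1.1), y.2)) ?_
      refine Primrec.pair (Primrec.pair ?_ ?_) Primrec.snd
      · exact Primrec.fst.comp (Primrec.snd.comp Primrec.fst)
      · exact Primrec₂.natPair.comp (Primrec.const 0)
          (Primrec.fst.comp (Primrec.fst.comp Primrec.fst))
    · refine Primrec.eq.comp ?_ (Primrec.list_append.comp ?_
        (Primrec.list_cons.comp Primrec.snd (Primrec.const [])))
      · exact Primrec.snd.comp (Primrec.snd.comp Primrec.fst)
      · exact Primrec.snd.comp (Primrec.snd.comp (Primrec.fst.comp Primrec.fst))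
  refine (h1.and h2).of_eq ?_
  rintro ⟨⟨k, j, τ⟩, j', τ'⟩
  simp only [nx, Prod.mk.injEq]
  constructor
  · rintro ⟨rfl, v, rfl, rfl⟩
    exact ⟨rfl, rfl⟩
  · rintro ⟨rfl, rfl⟩
    exact ⟨rfl, _, rfl, rfl⟩

theorem sr_st {D : ℕ → Bool} (hR : SR D fun x : (ℕ × ℕ) × Bool => R x.1.1 x.1.2 = x.2)
    (hf : SR D (fun x : (ℕ × ℕ × ℕ) × ℕ => f x.1 = x.2)) :
    SR D fun x : ℕ × ℕ × List Bool => st R f x.1 = x.2 := by
  have hn := sr_nx hR hf
  let d : ℕ × List Bool := (0, [])
  have h1 : SR D fun x : ℕ × ℕ × List Bool => ∃ L : List (ℕ × List Bool),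
      (L.getD 0 d = (0, []) ∧ L.getD x.1 d = x.2) ∧
        ∀ i < x.1, nx R f i (L.getD i d) = L.getD (i + 1) d := by
    refine SR.ex (p := fun (x : ℕ × ℕ × List Bool) (L : List (ℕ × List Bool)) =>
      (L.getD 0 d = (0, []) ∧ L.getD x.1 d = x.2) ∧
        ∀ i < x.1, nx R f i (L.getD i d) = L.getD (i + 1) d) (SR.and (SR.of_prim ?_) ?_)
    · refine PrimrecPred.and ?_ ?_
      · exact Primrec.eq.comp ((Primrec.list_getD d).comp Primrec.snd (Primrec.const 0))
          (Primrec.const _)
      · exact Primrec.eq.comp ((Primrec.list_getD d).comp Primrec.snd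
          (Primrec.fst.comp Primrec.fst)) (Primrec.snd.comp Primrec.fst)
    · refine SR.all_lt (α := (ℕ × ℕ × List Bool) × List (ℕ × List Bool)) (f := fun y => y.1.1)
        (p := fun y i => nx R f i (y.2.getD i d) = y.2.getD (i + 1) d) ?_
        (Primrec.fst.comp Primrec.fst)
      refine hn.comp (f := fun z : ((ℕ × ℕ × List Bool) × List (ℕ × List Bool)) × ℕ =>
        ((z.2, z.1.2.getD z.2 d), z.1.2.getD (z.2 + 1) d)) ?_
      refine Primrec.pair (Primrec.pair Primrec.snd ?_) ?_
      · exact (Primrec.list_getD d).comp (Primrec.snd.comp Primrec.fst) Primrec.snd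
      · exact (Primrec.list_getD d).comp (Primrec.snd.comp Primrec.fst)
          (Primrec.succ.comp Primrec.snd)
  refine h1.of_eq ?_
  rintro ⟨k, y⟩
  constructor
  · rintro ⟨L, ⟨h2, h3⟩, h4⟩
    have h5 : ∀ i, i ≤ k → st R f i = L.getD i d := by
      intro i
      induction i with
      | zero => intro _; rw [h2]; rfl
      | succ i ih =>
        intro hi
        rw [← h4 i (by simp only; omega), ← ih (by omega)]
        rfl
    show st R f k = y
    rw [h5 k le_rfl]
    exact h3
  · intro h
    have h : st R f k = y := h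
    have hL : ∀ i, i ≤ k → ((List.range (k + 1)).map (st R f)).getD i d = st R f i := by
      intro i hi
      simp [List.getD, List.getElem?_range, Nat.lt_succ_of_le hi]
    refine ⟨(List.range (k + 1)).map (st R f), ⟨?_, ?_⟩, ?_⟩
    · rw [hL 0 (Nat.zero_le _)]; rfl
    · simp only; rw [hL k le_rfl]; exact h
    · intro i hi
      simp only at hi
      rw [hL i (by omega), hL (i + 1) (by omega)]
      rfl

end seq

/-- The computability-theoretic core: if `D` computes an enumeration of a family of sets, together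
with a function which finds members of nonempty `Pi01` classes relative to members of the family,
then there is an upper bound of the family strictly below `D`. -/
theorem core (D : ℕ → Bool) (R : ℕ → ℕ → Bool)
    (hR : SR D fun x : (ℕ × ℕ) × Bool => R x.1.1 x.1.2 = x.2)
    (pf : ∀ q : ℕ × List Bool × List Bool × List Bool → Prop, PrimrecPred q →
      ∃ f : ℕ × ℕ × ℕ → ℕ, SR D (fun x : (ℕ × ℕ × ℕ) × ℕ => f x.1 = x.2) ∧
        ∀ s a a', (∃ G : ℕ → Bool, ∀ l, ¬ q (s, pre (R a) l, pre (R a') l, pre G l)) →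
          ∀ l, ¬ q (s, pre (R a) l, pre (R a') l, pre (R (f (s, a, a'))) l)) :
    ∃ B, TLe B D ∧ ¬ TLe D B ∧ ∀ a, TLe (R a) B := by
  classical
  obtain ⟨f, hf, hfs⟩ := pf QQ primrec_QQ
  have hst := sr_st hR hf
  obtain ⟨S, hS⟩ : ∃ S : ℕ → ℕ → Bool, S = fun k => R (st R f k).1 := ⟨_, rfl⟩
  obtain ⟨T, hT⟩ : ∃ T : ℕ → List Bool, T = fun k => (st R f k).2 := ⟨_, rfl⟩
  have hT0 : T 0 = [] := by rw [hT]; rfl
  have hTs : ∀ k, T (k + 1) = T k ++ [S (k + 1) (Nat.pair 0 k)] := by
    intro k; rw [hT, hS]; rfl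
  -- the step
  have hstep : ∀ k, (∃ G, Base k (T k) (mask k (S k)) G) →
      Base k (T k) (mask k (S k)) (S (k + 1)) ∧
        ∀ m, S (k + 1) (Nat.pair (k + 1) (pos c0 k (T k) (pre (R k) m))) = R k m := by
    intro k h
    obtain ⟨G, hG⟩ := code_all k (T k) (mask k (S k)) (R k) h
    have h1 := hfs (encode (k, T k)) (st R f k).1 k ⟨G, fun l => by
      rw [QQ_iff]; rw [hS] at hG; exact hG l⟩
    have h2 : ∀ l, ¬ VV c0 k (T k) (pre (R k) l) (pre (mask k (S k)) l) (pre (S (k + 1)) l) := by
      intro l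
      have h3 := h1 l
      rw [QQ_iff] at h3
      have h4 : S (k + 1) = R (f (encode (k, T k), (st R f k).1, k)) := by
        rw [hS, hT]; rfl
      rw [h4]
      rw [hS]
      exact h3
    rw [VV_inf] at h2
    exact h2
  have hlen : ∀ k, (T k).length = k := by
    intro k
    induction k with
    | zero => rw [hT0]; rfl
    | succ k ih => rw [hTs]; simp [ih]
  have hbase : ∀ k, ∃ G, Base k (T k) (mask k (S k)) G := by
    intro k
    induction k with
    | zero =>
      obtain ⟨G, hG⟩ := exists_good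
      refine ⟨G, hG, ?_, ?_⟩
      · funext z
        unfold mask
        rw [if_neg (by omega), if_neg (by omega)]
      · intro i hi
        rw [hlen] at hi
        omega
    | succ k ih =>
      obtain ⟨⟨h1, h2, h3⟩, -⟩ := hstep k ih
      refine ⟨S (k + 1), h1, rfl, fun i hi => ?_⟩
      rw [hlen] at hi
      rw [hTs]
      rcases Nat.lt_or_ge i k with hik | hik
      · rw [List.getD_append _ _ _ _ (by rw [hlen]; exact hik)]
        exact h3 i (by rw [hlen]; exact hik)
      · have : i = k := by omega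
        subst this
        rw [List.getD_append_right _ _ _ _ (by rw [hlen])]
        simp [hlen]
  have hs1 : ∀ k s, ¬ Bad (pre (S (k + 1)) s) := fun k => (hstep k (hbase k)).1.1
  have hs2 : ∀ k, mask k (S (k + 1)) = mask k (S k) := fun k => (hstep k (hbase k)).1.2.1
  have hs3 : ∀ k, ∀ i < k, S (k + 1) (Nat.pair 0 i) = (T k).getD i false := fun k i hi =>
    (hstep k (hbase k)).1.2.2 i (by rw [hlen]; exact hi)
  have hs4 : ∀ k m, S (k + 1) (Nat.pair (k + 1) (pos c0 k (T k) (pre (R k) m))) = R k m :=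
    fun k => (hstep k (hbase k)).2
  -- stability of the columns
  have hcol : ∀ k k' z, k ≤ k' → 1 ≤ (Nat.unpair z).1 → (Nat.unpair z).1 ≤ k → S k' z = S k z := by
    intro k k' z hk h1 h2
    induction k' with
    | zero =>
      have : k = 0 := by omega
      rw [this]
    | succ k' ih =>
      rcases Nat.lt_or_ge k' k with h | h
      · have : k = k' + 1 := by omega
        rw [this]
      · rw [← ih h]
        have h3 := congrFun (hs2 k') z
        unfold mask at h3
        rwa [if_pos ⟨h1, by omega⟩, if_pos ⟨h1, by omega⟩] at h3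
  have hTlt : ∀ k i, i < k → (T k).getD i false = S (i + 1) (Nat.pair 0 i) := by
    intro k i hi
    induction k with
    | zero => omega
    | succ k ih =>
      rw [hTs]
      rcases Nat.lt_or_ge i k with hik | hik
      · rw [List.getD_append _ _ _ _ (by rw [hlen]; exact hik)]
        exact ih hik
      · have : i = k := by omega
        subst this
        rw [List.getD_append_right _ _ _ _ (by rw [hlen])]
        simp [hlen]
  let B : ℕ → Bool := fun z => if 1 ≤ (Nat.unpair z).1 then S (Nat.unpair z).1 z else false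
  let Y : ℕ → Bool := fun i => S (i + 1) (Nat.pair 0 i)
  have hSR : SR D fun x : (ℕ × ℕ) × Bool => S x.1.1 x.1.2 = x.2 := by
    have h1 : SR D fun x : (ℕ × ℕ) × Bool => ∃ y : ℕ × List Bool, st R f x.1.1 = y ∧
        R y.1 x.1.2 = x.2 := by
      refine SR.ex (p := fun (x : (ℕ × ℕ) × Bool) (y : ℕ × List Bool) => st R f x.1.1 = y ∧
        R y.1 x.1.2 = x.2) (SR.and ?_ ?_)
      · exact hst.comp (f := fun z : ((ℕ × ℕ) × Bool) × ℕ × List Bool => (z.1.1.1, z.2))
          ((Primrec.fst.comp (Primrec.fst.comp Primrec.fst)).pair Primrec.snd)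
      · exact hR.comp (f := fun z : ((ℕ × ℕ) × Bool) × ℕ × List Bool =>
          ((z.2.1, z.1.1.2), z.1.2)) (((Primrec.fst.comp Primrec.snd).pair (Primrec.snd.comp
            (Primrec.fst.comp Primrec.fst))).pair (Primrec.snd.comp Primrec.fst))
    refine h1.of_eq ?_
    rintro ⟨⟨k, z⟩, v⟩
    simp only [hS, exists_eq_left']
  have hBD : TLe B D := by
    rw [tle_iff]
    have hu : Primrec fun x : ℕ × Bool => (Nat.unpair x.1).1 :=
      Primrec.fst.comp (Primrec.unpair.comp Primrec.fst)
    have h1 : SR D fun x : ℕ × Bool => (1 ≤ (Nat.unpair x.1).1 ∧ S (Nat.unpair x.1).1 x.1 = x.2) ∨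
        (¬ 1 ≤ (Nat.unpair x.1).1 ∧ false = x.2) := by
      refine SR.or (SR.and (SR.of_prim (Primrec.nat_le.comp (Primrec.const 1) hu)) ?_)
        (SR.of_prim (PrimrecPred.and (PrimrecPred.not (Primrec.nat_le.comp (Primrec.const 1) hu))
          (Primrec.eq.comp (Primrec.const false) Primrec.snd)))
      exact hSR.comp (f := fun x : ℕ × Bool => (((Nat.unpair x.1).1, x.1), x.2))
        ((hu.pair Primrec.fst).pair Primrec.snd)
    refine h1.of_eq fun x => ?_
    by_cases hx : 1 ≤ (Nat.unpair x.1).1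
    · simp [B, hx]
    · simp [B, hx]
  have hYD : TLe Y D := by
    rw [tle_iff]
    exact hSR.comp (f := fun x : ℕ × Bool => ((x.1 + 1, Nat.pair 0 x.1), x.2))
      (((Primrec.succ.comp Primrec.fst).pair (Primrec₂.natPair.comp (Primrec.const 0)
        Primrec.fst)).pair Primrec.snd)
  -- the limit is in the class
  have hBpre : ∀ s k, s ≤ k → pre (maskI (S k)) s = pre B s := by
    intro s k hsk
    refine rp_pre_congr _ _ _ fun z hz => ?_
    have hle := Nat.unpair_left_le z
    unfold maskI
    by_cases h1 : 1 ≤ (Nat.unpair z).1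
    · simp only [B]
      rw [if_pos h1, if_pos h1]
      exact hcol _ _ z (by omega) h1 le_rfl
    · simp only [B]
      rw [if_neg h1, if_neg h1]
  have hUY : ∀ e b, UU B e b → Y e = b := by
    rintro e b ⟨s, hs⟩
    let k := s + e + 1
    have h1 : UU (maskI (S (k + 1))) e b := ⟨s, by rw [hBpre s (k + 1) (by simp only [k]; omega)]; exact hs⟩
    have h2 := ((bad_iff (S (k + 1))).1 (hs1 k)).2 e b h1
    have h3 := hs3 k e (by simp only [k]; omega)
    rw [hTlt k e (by simp only [k]; omega)] at h3
    show S (e + 1) (Nat.pair 0 e) = b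
    rw [← h3]; exact h2
  refine ⟨B, hBD, ?_, ?_⟩
  · intro hDB
    have hYB : TLe Y B := TLe.trans hYD hDB
    rw [tle_iff] at hYB
    obtain ⟨G, hG, -, he⟩ := hYB
    have hW : S1 fun x : List Bool × ℕ × Bool => G (x.1, x.2.1, !x.2.2) := by
      refine hG.comp (Primrec.fst.pair ((Primrec.fst.comp Primrec.snd).pair ?_))
      exact Primrec.not.comp (Primrec.snd.comp Primrec.snd)
    obtain ⟨c, hc⟩ := exists_hlt hW
    let e := Nat.pair (encode c) 0
    have h1 : ∃ s b, G (pre B s, e, !b) := by
      obtain ⟨s, hs⟩ := (he (e, Y e)).1 rfl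
      exact ⟨s, !(Y e), by simpa using hs⟩
    obtain ⟨b, hU, s, hs⟩ := UU_univ hc (e := e) (by simp [e]) h1
    have h2 : Y e = !b := (he (e, !b)).2 ⟨s, hs⟩
    have h3 := hUY e b hU
    rw [h3] at h2
    cases b <;> simp at h2
  · intro a
    rw [tle_iff]
    have hBcol : ∀ p, B (Nat.pair (a + 1) p) = S (a + 1) (Nat.pair (a + 1) p) := by
      intro p
      simp [B]
    let g : List Bool → ℕ := fun r => Nat.pair (a + 1) (pos c0 a (T a) r)
    have hg : Primrec g := by
      refine Primrec₂.natPair.comp (Primrec.const _) (Primrec₂.natPair.comp (Primrec.const _)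
        (Primrec.encode.comp ((Primrec.const _).pair ((Primrec.const _).pair Primrec.id))))
    have hgR : ∀ m, B (g (pre (R a) m)) = R a m := by
      intro m
      simp only [g]
      rw [hBcol]
      exact hs4 a m
    have h1 : SR B fun x : ℕ × Bool => ∃ r : List Bool, (x.1 < r.length ∧
        r.getD x.1 false = x.2) ∧ ∀ i < x.1 + 1, B (g (r.take i)) = r.getD i false := by
      refine SR.ex (p := fun (x : ℕ × Bool) (r : List Bool) => (x.1 < r.length ∧
        r.getD x.1 false = x.2) ∧ ∀ i < x.1 + 1, B (g (r.take i)) = r.getD i false)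
        (SR.and (SR.of_prim ?_) ?_)
      · exact PrimrecPred.and (Primrec.nat_lt.comp (Primrec.fst.comp Primrec.fst)
          (Primrec.list_length.comp Primrec.snd)) (Primrec.eq.comp
            ((Primrec.list_getD false).comp Primrec.snd (Primrec.fst.comp Primrec.fst))
            (Primrec.snd.comp Primrec.fst))
      · refine SR.all_lt (α := (ℕ × Bool) × List Bool) (f := fun y => y.1.1 + 1)
          (p := fun y i => B (g (y.2.take i)) = y.2.getD i false) ?_
          (Primrec.succ.comp (Primrec.fst.comp Primrec.fst))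
        refine (SR.oracle B).comp (f := fun z : ((ℕ × Bool) × List Bool) × ℕ =>
          (g (z.1.2.take z.2), z.1.2.getD z.2 false)) (Primrec.pair (hg.comp ?_) ?_)
        · exact Primrec.list_take.comp Primrec.snd (Primrec.snd.comp Primrec.fst)
        · exact (Primrec.list_getD false).comp (Primrec.snd.comp Primrec.fst) Primrec.snd
    refine h1.of_eq ?_
    rintro ⟨m, v⟩
    constructor
    · rintro ⟨r, ⟨hlr, h2⟩, h3⟩
      simp only at h2 h3 hlr
      have h4 : ∀ i, i < m + 1 → r.getD i false = R a i ∧ r.take i = pre (R a) i := by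
        intro i
        induction i using Nat.strong_induction_on with
        | _ i ih =>
          intro hi
          have h5 : r.take i = pre (R a) i := by
            rcases Nat.eq_zero_or_pos i with rfl | hpos
            · simp [pre]
            · obtain ⟨i', rfl⟩ : ∃ i', i = i' + 1 := ⟨i - 1, by omega⟩
              obtain ⟨h6, h7⟩ := ih i' (by omega) (by omega)
              rw [pre_succ, ← h7, ← h6]
              have hlen' : i' < r.length := by omega
              rw [List.take_add_one, List.getD_eq_getElem _ _ hlen']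
              simp [hlen']
          refine ⟨?_, h5⟩
          rw [← h3 i hi, h5]
          exact hgR i
      show R a m = v
      rw [← h2, (h4 m (by omega)).1]
    · intro h
      have h : R a m = v := h
      refine ⟨pre (R a) (m + 1), ⟨by simp, ?_⟩, ?_⟩
      · simp only
        rw [pre_getD _ _ _ _ (Nat.lt_succ_self m)]; exact h
      · intro i hi
        simp only at hi
        rw [take_pre _ _ _ hi.le, pre_getD _ _ _ _ hi]
        exact hgR i

end Pool.Agent.TH748.MU
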