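import Pool.Agent.TH748.MU.Path
import Pool.Agent.TH748.MU.Inj
import Pool.Agent.TH541.TN

/-!
The theorem about models of completions of PA.
-/

set_option autoImplicit false
set_option linter.unusedSectionVars false

open FirstOrder FirstOrder.Language
open Pool.Agent.Helper227 Pool.Agent.Helper227.EN
open Pool.Agent.TH752

namespace Pool.Agent.TH748.MU

theorem num_cast {M : Type} [LA.Structure M] [CommSemiring M] [LinearOrder M] (hc : Compat M)
    (n : ℕ) : (num n : LA.Term Empty).realize (default : Empty → M) = (n : M) := by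
  induction n with
  | zero =>
    show (t0 : LA.Term Empty).realize _ = _
    rw [ea_t0, hc.zero]; simp
  | succ n ih =>
    show (tadd (num n) t1 : LA.Term Empty).realize _ = _
    rw [ea_tadd, ih, ea_t1, hc.one, hc.add]; push_cast; rfl

/-- A structure all of whose elements are standard is isomorphic to the standard model. -/
theorem iso_of_std {M : Type} [LA.Structure M] [CommSemiring M] [LinearOrder M]
    [IsStrictOrderedRing M] [CanonicallyOrderedAdd M] (hc : Compat M)
    (h : ∀ x : M, ∃ n : ℕ, x = n) :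
    Nonempty (@FirstOrder.Language.Equiv LA M ℕ _ stdStr) := by
  let _ : LA.Structure ℕ := stdStr
  let e : ℕ ≃ M := Equiv.ofBijective (fun n : ℕ => (n : M))
    ⟨fun a b hab => Nat.cast_injective hab, fun x => by
      obtain ⟨n, hn⟩ := h x
      exact ⟨n, hn.symm⟩⟩
  have he : ∀ n : ℕ, e n = (n : M) := fun n => rfl
  have hes : ∀ x : M, ((e.symm x : ℕ) : M) = x := fun x => by rw [← he]; exact e.apply_symm_apply x
  refine ⟨⟨e.symm, ?_, ?_⟩⟩
  · intro n f x
    apply e.injective
    show e (e.symm _) = e _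
    rw [e.apply_symm_apply, he]
    cases f with
    | zero =>
      show _ = ((0 : ℕ) : M)
      rw [Nat.cast_zero, ← hc.zero]
      exact congrArg _ (Subsingleton.elim _ _)
    | one =>
      show _ = ((1 : ℕ) : M)
      rw [Nat.cast_one, ← hc.one]
      exact congrArg _ (Subsingleton.elim _ _)
    | add =>
      show _ = ((e.symm (x 0) + e.symm (x 1) : ℕ) : M)
      rw [Nat.cast_add, hes, hes, ← hc.add]
      congr 1
      funext i
      fin_cases i <;> rfl
    | mul =>
      show _ = ((e.symm (x 0) * e.symm (x 1) : ℕ) : M)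
      rw [Nat.cast_mul, hes, hes, ← hc.mul]
      congr 1
      funext i
      fin_cases i <;> rfl
  · intro n r x
    cases r with
    | lt =>
      show e.symm (x 0) < e.symm (x 1) ↔ _
      have h1 : x = ![x 0, x 1] := by
        funext i
        fin_cases i <;> rfl
      rw [h1, hc.lt]
      simp only [Matrix.cons_val_zero, Matrix.cons_val_one]
      rw [← Nat.cast_lt (α := M), hes, hes]

/-- A nonstandard model of PA with an enumeration `b` of its elements: an upper bound of the
standard system strictly below the atomic diagram, and the sets of true prenex sentences are in the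
standard system. -/
theorem generic {M : Type} [LA.Structure M] (h : M ⊨ PA) (b : ℕ → M) (hb : Function.Surjective b)
    (hns : ¬ Nonempty (@FirstOrder.Language.Equiv LA M ℕ _ stdStr)) :
    (∃ B, TLe B (Dg b) ∧ ¬ TLe (Dg b) B ∧ ∀ X ∈ SSy M, TLe X B) ∧
      ∀ (n : ℕ) (X : ℕ → Bool), (∀ x, X x = true ↔ ∃ φ : LA.Sentence, Hier true n φ ∧ M ⊨ φ ∧
        gf φ = x) → X ∈ SSy M := by
  have : Nonempty M := ⟨b 0⟩
  have hm : M ⊨ PAminus := h.mono Set.subset_union_left
  obtain ⟨i1, i2, i3, i4, hc⟩ := exists_alg M hm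
  have hA := ari_of_pa hc h
  have hns' : ∃ x : M, ∀ n : ℕ, x ≠ n := by
    by_contra hcon
    push Not at hcon
    exact hns (iso_of_std hc hcon)
  constructor
  · obtain ⟨B, h1, h2, h3⟩ := main_bound hc hb hA hns'
    refine ⟨B, h1, h2, ?_⟩
    rintro X ⟨S, hS, hX⟩
    refine h3 (fun x => x ∈ S) X (AR.dfn_one.1 hS) fun n => ?_
    rw [hX, num_cast hc]
  · intro n X hX
    obtain ⟨S, hS, hS'⟩ := Pool.Agent.TH541.TN.tn_def hc hA n
    refine ⟨{x | S x}, AR.dfn_one.2 hS, fun x => ?_⟩
    rw [hX, ← hS', num_cast hc]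
    rfl

/-- Negative answer for every completion of PA and every nonstandard model. -/
theorem main (T : LA.Theory) (hT : T.IsMaximal) (hPA : PA ⊆ T) (A : LA.Structure ℕ)
    (hA : @FirstOrder.Language.Theory.Model LA ℕ A T)
    (hns : ¬ Nonempty (@FirstOrder.Language.Equiv LA ℕ ℕ A stdStr)) :
    (∃ B, TLe B (diag A) ∧ ¬ TLe (diag A) B ∧ ∀ X ∈ @SSy ℕ A, TLe X B) ∧
      (∀ n, Tn T n ∈ @SSy ℕ A) ∧ ¬ IsMinUB (diag A) (Tn T) := by
  have hMPA : @FirstOrder.Language.Theory.Model LA ℕ A PA := by
    let _ := A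
    exact hA.mono hPA
  obtain ⟨h1, h2⟩ := @generic ℕ A hMPA id Function.surjective_id hns
  have h3 : ∀ φ : LA.Sentence, φ ∈ T ↔ @FirstOrder.Language.Sentence.Realize LA ℕ A φ := by
    let _ := A
    intro φ
    constructor
    · intro hφ
      exact hA.realize_of_mem φ hφ
    · intro hφ
      rcases hT.2 φ with h | h
      · exact h
      · exact absurd hφ ((Sentence.realize_not ℕ).1 (hA.realize_of_mem _ h))
  have h4 : ∀ n, Tn T n ∈ @SSy ℕ A := by
    intro n
    refine h2 n (Tn T n) fun x => ?_
    unfold Tn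
    rw [@decide_eq_true_iff _ (Classical.propDecidable _)]
    refine exists_congr fun φ => and_congr_right fun _ => and_congr_left fun _ => h3 φ
  refine ⟨h1, h4, ?_⟩
  rintro ⟨-, h5⟩
  obtain ⟨B, hB1, hB2, hB3⟩ := h1
  exact hB2 (h5 B (fun n => hB3 _ (h4 n)) hB1)

end Pool.Agent.TH748.MU
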