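import Pool.Agent.TH748.MU.Diag
import Pool.Agent.Helper227.ENJ.P_repF_pair
import Pool.Agent.Helper227.ENJ.P_rep_pre

/-!
The sets coded in a nonstandard model of PA, and a path finder computable in the diagram.
-/

set_option autoImplicit false
set_option linter.unusedSectionVars false

open Encodable
open FirstOrder FirstOrder.Language
open Pool.Agent.Helper227 Pool.Agent.Helper227.EN
open Pool.Agent.TH752

namespace Pool.Agent.TH748.MU

variable {M : Type} [LA.Structure M] [CommSemiring M] [LinearOrder M] [IsStrictOrderedRing M]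
  [CanonicallyOrderedAdd M]

/-- the `n`-th binary digit of `x` is `1` -/
def bitM (x : M) (n : ℕ) : Prop :=
  ∃ q r : M, r < ((2 ^ n : ℕ) : M) ∧
    x = q * (((2 ^ n : ℕ) : M) + ((2 ^ n : ℕ) : M)) + ((2 ^ n : ℕ) : M) + r

/-- the `n`-th binary digit of `x` is `0` -/
def bitZ (x : M) (n : ℕ) : Prop :=
  ∃ q r : M, r < ((2 ^ n : ℕ) : M) ∧
    x = q * (((2 ^ n : ℕ) : M) + ((2 ^ n : ℕ) : M)) + r

theorem two_pow_pos' (n : ℕ) : (0 : M) < ((2 ^ n : ℕ) : M) := by
  have : ((0 : ℕ) : M) < ((2 ^ n : ℕ) : M) := Nat.cast_lt.2 (by positivity)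
  simpa using this

theorem bit_or (hA : AR.Ari LA M) (x : M) (n : ℕ) : bitM x n ∨ bitZ x n := by
  have hp := two_pow_pos' (M := M) n
  obtain ⟨q, r, hr, hx⟩ := hA.div x (b := ((2 ^ n : ℕ) : M) + ((2 ^ n : ℕ) : M))
    (by exact add_pos hp hp)
  rcases lt_or_ge r ((2 ^ n : ℕ) : M) with h | h
  · right
    exact ⟨q, r, h, by rw [hx, mul_comm]⟩
  · left
    obtain ⟨s, rfl⟩ := exists_add_of_le h
    refine ⟨q, s, lt_of_add_lt_add_left hr, ?_⟩
    rw [hx, mul_comm, add_assoc]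

/-- uniqueness of division -/
theorem div_unique {m q q' r r' : M} (hd : ∀ x : M, x < 1 → x = 0) (hr : r < m) (hr' : r' < m)
    (h : q * m + r = q' * m + r') : q = q' ∧ r = r' := by
  have aux : ∀ q q' v w : M, v < m → q * m + v = q' * m + w → ¬ q < q' := by
    intro q q' v w hv he hlt
    obtain ⟨d, rfl⟩ := le_iff_exists_add.mp hlt.le
    have hd1 : 1 ≤ d := by
      by_contra h
      have h0 := hd d (not_le.mp h)
      rw [h0, add_zero] at hlt
      exact lt_irrefl _ hlt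
    have e1 : v = d * m + w := by
      have : q * m + v = q * m + (d * m + w) := by rw [he]; ring
      exact add_left_cancel this
    have e2 : m ≤ d * m + w := by
      calc m = 1 * m := (one_mul m).symm
        _ ≤ d * m := mul_le_mul_of_nonneg_right hd1 zero_le
        _ ≤ d * m + w := le_self_add
    exact absurd (e1 ▸ hv) (not_lt.mpr e2)
  have e3 : q = q' := le_antisymm (not_lt.mp (aux q' q r' r hr' h.symm))
    (not_lt.mp (aux q q' r r' hr h))
  subst e3
  exact ⟨rfl, add_left_cancel h⟩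

theorem bit_not_and (hd : ∀ x : M, x < 1 → x = 0) (x : M) (n : ℕ) : ¬ (bitM x n ∧ bitZ x n) := by
  rintro ⟨⟨q, r, hr, hx⟩, ⟨q', r', hr', hx'⟩⟩
  rw [hx, add_assoc] at hx'
  have h1 := div_unique hd (m := ((2 ^ n : ℕ) : M) + ((2 ^ n : ℕ) : M))
    (add_lt_add_of_le_of_lt le_rfl hr) (lt_of_lt_of_le hr' le_self_add) hx'
  rw [← h1.2] at hr'
  exact absurd hr' (not_lt.2 le_self_add)

/-- the binary digits of a standard number -/
theorem bit_nat (hd : ∀ x : M, x < 1 → x = 0) (m n : ℕ) : bitM (m : M) n ↔ rpbit m n = true := by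
  have key : (rpbit m n = true → bitM (m : M) n) ∧ (rpbit m n = false → bitZ (m : M) n) := by
    have h1 := Nat.div_add_mod m (2 ^ n)
    have h2 : m % 2 ^ n < 2 ^ n := Nat.mod_lt _ (by positivity)
    have h3 := Nat.bodd_add_div2 (m / 2 ^ n)
    unfold rpbit
    constructor
    · intro hb
      rw [hb] at h3
      refine ⟨((Nat.div2 (m / 2 ^ n) : ℕ) : M), ((m % 2 ^ n : ℕ) : M), Nat.cast_lt.2 h2, ?_⟩
      rw [← Nat.cast_add, ← Nat.cast_mul, ← Nat.cast_add, ← Nat.cast_add]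
      congr 1
      simp only [Bool.toNat_true] at h3
      calc m = 2 ^ n * (m / 2 ^ n) + m % 2 ^ n := h1.symm
        _ = 2 ^ n * (1 + 2 * Nat.div2 (m / 2 ^ n)) + m % 2 ^ n := by rw [h3]
        _ = _ := by ring
    · intro hb
      rw [hb] at h3
      refine ⟨((Nat.div2 (m / 2 ^ n) : ℕ) : M), ((m % 2 ^ n : ℕ) : M), Nat.cast_lt.2 h2, ?_⟩
      rw [← Nat.cast_add, ← Nat.cast_mul, ← Nat.cast_add]
      congr 1
      simp only [Bool.toNat_false, zero_add] at h3
      calc m = 2 ^ n * (m / 2 ^ n) + m % 2 ^ n := h1.symm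
        _ = 2 ^ n * (2 * Nat.div2 (m / 2 ^ n)) + m % 2 ^ n := by rw [h3]
        _ = _ := by ring
  constructor
  · intro h
    by_contra hne
    exact bit_not_and hd _ _ ⟨h, key.2 (by simpa using hne)⟩
  · exact key.1

open Classical in
/-- the set coded by an element -/
noncomputable def bits (x : M) : ℕ → Bool := fun n => decide (bitM x n)

theorem bits_pre_nat (hd : ∀ x : M, x < 1 → x = 0) (G : ℕ → Bool) (l : ℕ) :
    ∃ m : ℕ, ∀ l' ≤ l, pre (bits (m : M)) l' = pre G l' := by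
  obtain ⟨m, -, hm⟩ := rp_exists l G
  refine ⟨m, fun l' hl' => rp_pre_congr _ _ _ fun i hi => ?_⟩
  rw [← hm i (by omega)]
  unfold bits
  have := bit_nat (M := M) hd m i
  by_cases h : rpbit m i = true
  · rw [h]; simpa using this.2 h
  · have h' : rpbit m i = false := by simpa using h
    rw [h', decide_eq_false_iff_not]
    exact fun h2 => h (this.1 h2)

/-- bits, as a definable relation -/
theorem exists_bitD (hc : Compat M) : ∃ B : M → M → Prop,
    EN.Dfn (fun x : ℕ → M => B (x 0) (x 1)) ∧ ∀ (x : M) (n : ℕ), B x n ↔ bitM x n := by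
  obtain ⟨G2, hG2, hG2'⟩ := repF_primrec hc _ rp_primrec_two
  obtain ⟨hvar, hnum, hadd, hmul, heq, hlt, -⟩ := trm_ops hc
  refine ⟨fun x i => ∃ u, G2 i u ∧ ∃ q r, r < u ∧ x = q * (u + u) + u + r, ?_, ?_⟩
  · refine dfn_ex (fun x u => G2 (x 1) u ∧ ∃ q r, r < u ∧ x 0 = q * (u + u) + u + r) 2
      (fun x y v => by simp [Function.update]) (dfn_bool.2.2.1 _ _ ?_ ?_)
    · exact dfn_subst (fun x => G2 (x 0) (x 1)) hG2 (fun i x => x (if i = 0 then 1 else 2))
        (fun i => hvar _)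
    · refine dfn_ex (fun x q => ∃ r, r < x 2 ∧ x 0 = q * (x 2 + x 2) + x 2 + r) 3
        (fun x y v => by simp [Function.update]) ?_
      refine dfn_ex (fun x r => r < x 2 ∧ x 0 = x 3 * (x 2 + x 2) + x 2 + r) 4
        (fun x y v => by simp [Function.update]) ?_
      refine dfn_bool.2.2.1 _ _ (hlt _ _ (hvar 4) (hvar 2)) (heq _ _ (hvar 0) ?_)
      exact hadd _ _ (hadd _ _ (hmul _ _ (hvar 3) (hadd _ _ (hvar 2) (hvar 2))) (hvar 2)) (hvar 4)
  · intro x n
    unfold bitM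
    constructor
    · rintro ⟨u, hu, h⟩
      rw [hG2'] at hu
      rw [hu] at h
      exact h
    · intro h
      exact ⟨_, (hG2' n _).2 rfl, h⟩

/-- overspill -/
theorem overspill (hc : Compat M) (hA : AR.Ari LA M) (hns : ∃ x : M, ∀ n : ℕ, x ≠ n) {S : M → Prop}
    (hS : AR.Dfn LA (Set.univ : Set M) fun v => S (v 0)) (h : ∀ n : ℕ, S n) :
    ∃ x : M, (∀ n : ℕ, (n : M) < x) ∧ ∀ y, y ≤ x → S y := by
  by_contra hcon
  push Not at hcon
  have hbelow : ∀ (x : M), (∃ n : ℕ, x ≤ n) → ∃ n : ℕ, x = n := by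
    rintro x ⟨n, hn⟩
    obtain ⟨m, -, hm⟩ := std_below hc n x hn
    exact ⟨m, hm⟩
  have hT : AR.Dfn LA (Set.univ : Set M) fun v => ∀ y, y ≤ v 0 → S y := by
    have h1 : AR.Dfn LA (Set.univ : Set M) fun w => w 0 ≤ w 1 → S (w 0) :=
      (hA.le (AR.DF.var 0) (AR.DF.var 1)).imp hS
    exact h1.all
  have hst : ∀ x : M, (∀ y, y ≤ x → S y) → ∃ n : ℕ, x = n := by
    intro x hx
    by_contra hne
    push Not at hne
    have h1 : ∀ n : ℕ, (n : M) < x := by
      intro n
      by_contra h2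
      obtain ⟨m, hm⟩ := hbelow x ⟨n, not_lt.1 h2⟩
      exact hne m hm
    obtain ⟨y, hy, hSy⟩ := hcon x h1
    exact hSy (hx y hy)
  have hall := hA.ind (fun x => ∀ y, y ≤ x → S y) hT (fun y hy => by
      obtain ⟨n, hn⟩ := hbelow y ⟨0, by simpa using hy⟩
      rw [hn]; exact h n)
    (fun x hx y hy => by
      obtain ⟨n, hn⟩ := hst x hx
      obtain ⟨m, hm⟩ := hbelow y ⟨n + 1, by rw [hn] at hy; push_cast; exact hy⟩
      rw [hm]; exact h m)
  obtain ⟨x, hx⟩ := hns
  obtain ⟨n, hn⟩ := hst x (hall x)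
  exact hx n hn

/-- a nonstandard element is above all the standard ones -/
theorem ns_gt (hc : Compat M) (hns : ∃ x : M, ∀ n : ℕ, x ≠ n) : ∃ x : M, ∀ n : ℕ, (n : M) < x := by
  obtain ⟨x, hx⟩ := hns
  refine ⟨x, fun n => ?_⟩
  by_contra h
  obtain ⟨m, -, hm⟩ := std_below hc n x (not_lt.1 h)
  exact hx m hm

/-- every definable set is coded below a given nonstandard element -/
theorem coded_below (hc : Compat M) (hA : AR.Ari LA M) {c : M} (hcns : ∀ n : ℕ, (n : M) < c)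
    {S : M → Prop} (hS : AR.Dfn LA (Set.univ : Set M) fun v => S (v 0)) :
    ∃ a : M, a < c ∧ ∀ n : ℕ, bitM a n ↔ S n := by
  classical
  obtain ⟨B, hB, hB'⟩ := exists_bitD hc
  have hB1 : AR.Dfn LA (Set.univ : Set M) fun v => B (v 0) (v 1) := dfn_of hB
  have hd : AR.Dfn LA (Set.univ : Set M) fun v => ∃ a, a < c ∧ ∀ i, i < v 0 → (B a i ↔ S i) := by
    have h1 : AR.Dfn LA (Set.univ : Set M) fun w => w 0 < w 2 → (B (w 1) (w 0) ↔ S (w 0)) :=
      (hA.lt (AR.DF.var 0) (AR.DF.var 2)).imp ((hB1.ren2 1 0).iff hS)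
    have h2 : AR.Dfn LA (Set.univ : Set M) fun w => w 0 < c ∧ ∀ i, i < w 1 → (B (w 0) i ↔ S i) :=
      (hA.lt (AR.DF.var 0) (AR.DF.par c)).and h1.all
    exact h2.ex
  obtain ⟨x, hx, h⟩ := overspill hc hA ⟨c, fun n => (hcns n).ne'⟩
    (S := fun N => ∃ a, a < c ∧ ∀ i, i < N → (B a i ↔ S i)) hd (fun n => by
    obtain ⟨m, hm⟩ := bits_pre_nat (M := M) hc.disc (fun i => decide (S (i : M))) n
    refine ⟨(m : M), hcns m, fun i hi => ?_⟩
    obtain ⟨j, hj, rfl⟩ := std_below hc n i hi.le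
    have hjn : j < n := Nat.cast_lt.1 hi
    rw [hB']
    have h2 : (pre (bits (m : M)) n).getD j false =
        (pre (fun i => decide (S (i : M))) n).getD j false := by rw [hm n le_rfl]
    rw [pre_getD _ _ _ _ hjn, pre_getD _ _ _ _ hjn] at h2
    unfold bits at h2
    have h3 := decide_eq_decide.1 h2
    exact h3)
  obtain ⟨a, ha, h1⟩ := h x le_rfl
  exact ⟨a, ha, fun n => by rw [← hB', h1 n (hx n)]⟩

end Pool.Agent.TH748.MU
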