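import Pool.Agent.TH748.MU.Model
import Pool.Agent.TH748.MU.Core

/-!
The path finder.
-/

set_option autoImplicit false
set_option linter.unusedSectionVars false

open Encodable
open FirstOrder FirstOrder.Language
open Pool.Agent.Helper227 Pool.Agent.Helper227.EN
open Pool.Agent.TH752

namespace Pool.Agent.TH748.MU

variable {M : Type} [LA.Structure M] [CommSemiring M] [LinearOrder M] [IsStrictOrderedRing M]
  [CanonicallyOrderedAdd M]

theorem bits_iff (x : M) (i : ℕ) : bitM x i ↔ bits x i = true := by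
  unfold bits; simp

/-- a primitive recursive condition on initial segments of coded sets, as a definable relation -/
theorem exists_H (hc : Compat M) (hA : AR.Ari LA M)
    {q : ℕ × List Bool × List Bool × List Bool → Prop} (hq : PrimrecPred q) :
    ∃ H : M → M → M → M → M → Prop,
      AR.Dfn LA (Set.univ : Set M) (fun v => H (v 0) (v 1) (v 2) (v 3) (v 4)) ∧
      ∀ (s l : ℕ) (a a' z : M), H s a a' z l ↔
        ¬ q (s, pre (bits a) l, pre (bits a') l, pre (bits z) l) := by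
  classical
  let dc : ℕ → List Bool := fun n => (decode (α := List Bool) n).getD []
  have hdc : Primrec dc := Primrec.option_getD.comp Primrec.decode (Primrec.const [])
  have hdce : ∀ σ : List Bool, dc (encode σ) = σ := fun σ => by simp [dc]
  let f0 : ℕ → ℕ := fun n => if q ((Nat.unpair n).1, dc (Nat.unpair (Nat.unpair n).2).1,
    dc (Nat.unpair (Nat.unpair (Nat.unpair n).2).2).1,
    dc (Nat.unpair (Nat.unpair (Nat.unpair n).2).2).2) then 1 else 0
  have hf0 : Nat.Primrec f0 := by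
    rw [← Primrec.nat_iff]
    have e1 : Primrec fun n : ℕ => (Nat.unpair n).2 := Primrec.snd.comp Primrec.unpair
    have e2 : Primrec fun n : ℕ => (Nat.unpair (Nat.unpair n).2) := Primrec.unpair.comp e1
    have e3 : Primrec fun n : ℕ => (Nat.unpair (Nat.unpair (Nat.unpair n).2).2) :=
      Primrec.unpair.comp (Primrec.snd.comp e2)
    refine Primrec.ite (hq.comp (Primrec.pair (Primrec.fst.comp Primrec.unpair) (Primrec.pair
      (hdc.comp (Primrec.fst.comp e2)) (Primrec.pair (hdc.comp (Primrec.fst.comp e3))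
        (hdc.comp (Primrec.snd.comp e3)))))) (Primrec.const 1) (Primrec.const 0)
  have hf0e : ∀ (s : ℕ) (x y z : List Bool), f0 (Nat.pair s (Nat.pair (encode x)
      (Nat.pair (encode y) (encode z)))) = if q (s, x, y, z) then 1 else 0 := by
    intro s x y z
    simp only [f0, Nat.unpair_pair, hdce]
  obtain ⟨GF, hGF, hGF'⟩ := repF_primrec hc f0 hf0
  obtain ⟨GP, hGP, hGP', -⟩ := repF_pair hc
  obtain ⟨B, hB, hB'⟩ := exists_bitD hc
  obtain ⟨hvar, hnum, -⟩ := trm_ops hc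
  obtain ⟨P, hP, hP'⟩ := rep_pre hc (fun a _ i => B a i)
    (dfn_subst (fun x => B (x 0) (x 1)) hB (fun i x => x (if i = 0 then 0 else 2)) (fun i => hvar _))
  have hP1 : AR.Dfn LA (Set.univ : Set M) (fun v => P (v 0) (v 0) (v 1) (v 2)) :=
    dfn_of (dfn_subst (fun x => P (x 0) (x 1) (x 2) (x 3)) hP
      (fun i x => x (if i = 0 then 0 else if i = 1 then 0 else if i = 2 then 1 else 2))
      (fun i => hvar _))
  have hPv : ∀ (a y : M) (l : ℕ), P a a l y ↔ y = (encode (pre (bits a) l) : ℕ) := fun a y l =>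
    hP' a a (bits a) (fun i => by rw [hB', bits_iff]) l y
  have hG1 : AR.Dfn LA (Set.univ : Set M) (fun v => GP (v 0) (v 1) (v 2)) := dfn_of hGP
  have hF1 : AR.Dfn LA (Set.univ : Set M) (fun v => GF (v 0) (v 1)) := dfn_of hGF
  refine ⟨fun s a a' z l => ∀ x y w p1 p2 p3, P a a l x → P a' a' l y → P z z l w → GP y w p1 →
    GP x p1 p2 → GP s p2 p3 → GF p3 0, ?_, ?_⟩
  · have hP3 : ∀ i j k, AR.Dfn LA (Set.univ : Set M) (fun v => P (v i) (v i) (v j) (v k)) :=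
      fun i j k => AR.Dfn.ren3 (R := fun a l y => P a a l y) hP1 i j k
    have hG3 : ∀ i j k, AR.Dfn LA (Set.univ : Set M) (fun v => GP (v i) (v j) (v k)) :=
      fun i j k => AR.Dfn.ren3 (R := fun a l y => GP a l y) hG1 i j k
    have hF3 : AR.Dfn LA (Set.univ : Set M) (fun v => GF (v 0) 0) :=
      AR.Dfn.rel2 (R := GF) hF1 (AR.DF.var 0) (AR.DF.par 0)
    have h1 : AR.Dfn LA (Set.univ : Set M) (fun w => P (w 7) (w 7) (w 10) (w 5) →
        P (w 8) (w 8) (w 10) (w 4) → P (w 9) (w 9) (w 10) (w 3) → GP (w 4) (w 3) (w 2) →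
        GP (w 5) (w 2) (w 1) → GP (w 6) (w 1) (w 0) → GF (w 0) 0) :=
      (hP3 7 10 5).imp ((hP3 8 10 4).imp ((hP3 9 10 3).imp ((hG3 4 3 2).imp ((hG3 5 2 1).imp
        ((hG3 6 1 0).imp hF3)))))
    exact h1.all.all.all.all.all.all
  · intro s l a a' z
    constructor
    · intro h hqq
      have h1 := h _ _ _ _ _ _ ((hPv a _ l).2 rfl) ((hPv a' _ l).2 rfl) ((hPv z _ l).2 rfl)
        ((hGP' _ _ _).2 rfl) ((hGP' _ _ _).2 rfl) ((hGP' _ _ _).2 rfl)
      have h2 := (hGF' _ _).1 h1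
      rw [hf0e, if_pos hqq] at h2
      simp at h2
    · intro h x y w p1 p2 p3 hx hy hw h1 h2 h3
      rw [hPv] at hx hy hw
      subst hx hy hw
      rw [hGP'] at h1
      subst h1
      rw [hGP'] at h2
      subst h2
      rw [hGP'] at h3
      subst h3
      rw [hGF', hf0e, if_neg h]
      simp

theorem dfn_ren4 {A : Set M} {R : M → M → M → M → Prop}
    (h : AR.Dfn LA A fun v => R (v 0) (v 1) (v 2) (v 3)) (i j k l : ℕ) :
    AR.Dfn LA A fun v => R (v i) (v j) (v k) (v l) :=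
  h.ren (fun n => match n with | 0 => i | 1 => j | 2 => k | _ + 3 => l)

theorem dfn_ren5 {A : Set M} {R : M → M → M → M → M → Prop}
    (h : AR.Dfn LA A fun v => R (v 0) (v 1) (v 2) (v 3) (v 4)) (i j k l m : ℕ) :
    AR.Dfn LA A fun v => R (v i) (v j) (v k) (v l) (v m) :=
  h.ren (fun n => match n with | 0 => i | 1 => j | 2 => k | 3 => l | _ + 4 => m)

/-- normalization of the codes -/
noncomputable def cl (c x : M) : M := if x < c then x else 0

theorem cl_lt {c : M} (hc0 : 0 < c) (x : M) : cl c x < c := by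
  unfold cl; split_ifs with h
  · exact h
  · exact hc0

theorem cl_of_lt {c x : M} (h : x < c) : cl c x = x := if_pos h

theorem prN_mono {x x' y y' : M} (hx : x ≤ x') (hy : y ≤ y') : AR.prN x y ≤ AR.prN x' y' := by
  unfold AR.prN
  exact add_le_add (mul_le_mul' (add_le_add hx hy) (add_le_add hx hy)) hx

section
variable (hc : Compat M) {b : ℕ → M} (hb : Function.Surjective b)
variable {α : Type} [Primcodable α]
include hc hb

theorem ef_cl (c : M) {F : α → M} (hF : EF b F) : EF b fun x => cl c (F x) := by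
  have h1 : SR (Dg b) fun x : α × ℕ => (F x.1 < c ∧ b x.2 = F x.1) ∨ (c ≤ F x.1 ∧ b x.2 = 0) := by
    have hF' : EF b fun x : α × ℕ => F x.1 := hF.comp Primrec.fst
    have hi : EF b fun x : α × ℕ => b x.2 := ef_ind hc hb Primrec.snd
    exact SR.or (SR.and (sr_lt hc hb hF' (ef_const hc hb c)) (sr_eq hc hb hi hF'))
      (SR.and (sr_le hc hb (ef_const hc hb c) hF') (sr_eq hc hb hi (ef_const hc hb 0)))
  refine h1.of_eq fun x => ?_
  show _ ↔ b x.2 = cl c (F x.1)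
  unfold cl
  split_ifs with h
  · constructor
    · rintro (⟨-, h2⟩ | ⟨h2, -⟩)
      · exact h2
      · exact absurd h (not_lt.2 h2)
    · intro h2; exact Or.inl ⟨h, h2⟩
  · constructor
    · rintro (⟨h2, -⟩ | ⟨-, h2⟩)
      · exact absurd h2 h
      · exact h2
    · intro h2; exact Or.inr ⟨not_lt.1 h, h2⟩

theorem ef_prN {F G : α → M} (hF : EF b F) (hG : EF b G) : EF b fun x => AR.prN (F x) (G x) := by
  unfold AR.prN
  exact ef_add hc hb (ef_mul hc hb (ef_add hc hb hF hG) (ef_add hc hb hF hG)) hF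

/-- The path finder. -/
theorem path_finder (hA : AR.Ari LA M) {c : M} (hcns : ∀ n : ℕ, (n : M) < c)
    {q : ℕ × List Bool × List Bool × List Bool → Prop} (hq : PrimrecPred q) :
    ∃ f : ℕ × ℕ × ℕ → ℕ, SR (Dg b) (fun x : (ℕ × ℕ × ℕ) × ℕ => f x.1 = x.2) ∧
      ∀ s a a', (∃ G : ℕ → Bool, ∀ l, ¬ q (s, pre (bits (cl c (b a))) l,
          pre (bits (cl c (b a'))) l, pre G l)) →
        ∀ l, ¬ q (s, pre (bits (cl c (b a))) l, pre (bits (cl c (b a'))) l,
          pre (bits (cl c (b (f (s, a, a'))))) l) := by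
  classical
  have hc0 : (0 : M) < c := by simpa using hcns 0
  obtain ⟨H, hH, hH'⟩ := exists_H hc hA hq
  obtain ⟨Gd, hGd⟩ : ∃ Gd : M → M → M → M → M → Prop,
      Gd = fun s a a' z l => ∀ l', l' ≤ l → H s a a' z l' := ⟨_, rfl⟩
  have hGdd : AR.Dfn LA (Set.univ : Set M) (fun v => Gd (v 0) (v 1) (v 2) (v 3) (v 4)) := by
    rw [hGd]
    have h1 : AR.Dfn LA (Set.univ : Set M) (fun w => w 0 ≤ w 5 → H (w 1) (w 2) (w 3) (w 4) (w 0)) :=
      (hA.le (AR.DF.var 0) (AR.DF.var 5)).imp (dfn_ren5 hH 1 2 3 4 0)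
    exact h1.all
  obtain ⟨Ex, hEx⟩ : ∃ Ex : M → M → M → M → Prop,
      Ex = fun s a a' l => ∃ z', z' < c ∧ Gd s a a' z' l := ⟨_, rfl⟩
  have hExd : AR.Dfn LA (Set.univ : Set M) (fun v => Ex (v 0) (v 1) (v 2) (v 3)) := by
    rw [hEx]
    have h1 : AR.Dfn LA (Set.univ : Set M) (fun w => w 0 < c ∧ Gd (w 1) (w 2) (w 3) (w 0) (w 4)) :=
      (hA.lt (AR.DF.var 0) (AR.DF.par c)).and (dfn_ren5 hGdd 1 2 3 0 4)
    exact h1.ex
  obtain ⟨Bst, hBst⟩ : ∃ Bst : M → M → M → M → M → Prop,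
      Bst = fun s a a' z L => ∀ l, l ≤ L → Ex s a a' l → Gd s a a' z l := ⟨_, rfl⟩
  have hBd : AR.Dfn LA (Set.univ : Set M) (fun v => Bst (v 0) (v 1) (v 2) (v 3) (v 4)) := by
    rw [hBst]
    have h1 : AR.Dfn LA (Set.univ : Set M) (fun w => w 0 ≤ w 5 → Ex (w 1) (w 2) (w 3) (w 0) →
        Gd (w 1) (w 2) (w 3) (w 4) (w 0)) :=
      (hA.le (AR.DF.var 0) (AR.DF.var 5)).imp ((dfn_ren4 hExd 1 2 3 0).imp
        (dfn_ren5 hGdd 1 2 3 4 0))
    exact h1.all
  -- existence of best codes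
  have hbest : ∀ s a a' : M, ∃ z, z < c ∧ Bst s a a' z c := by
    intro s a a'
    have hd : AR.Dfn LA (Set.univ : Set M) (fun v => ∃ z, z < c ∧ Bst s a a' z (v 0)) := by
      have h1 : AR.Dfn LA (Set.univ : Set M) (fun w => Bst (w 0) (w 1) (w 2) (w 3) (w 4)) := hBd
      have h2 := h1.subst (AR.dc_of_mem (Set.mem_univ s))
      have h3 := h2.subst (AR.dc_of_mem (Set.mem_univ a))
      have h4 := h3.subst (AR.dc_of_mem (Set.mem_univ a'))
      have h5 : AR.Dfn LA (Set.univ : Set M) (fun w => w 0 < c ∧ Bst s a a' (w 0) (w 1)) :=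
        (hA.lt (AR.DF.var 0) (AR.DF.par c)).and h4
      exact h5.ex
    refine hA.ind (fun L => ∃ z, z < c ∧ Bst s a a' z L) hd ?_ ?_ c
    · by_cases hE : Ex s a a' 0
      · rw [hEx] at hE
        obtain ⟨z, hz, hG⟩ := hE
        refine ⟨z, hz, ?_⟩
        rw [hBst]
        intro l hl _
        have : l = 0 := le_antisymm hl zero_le
        rw [this]; exact hG
      · refine ⟨0, hc0, ?_⟩
        rw [hBst]
        intro l hl hE'
        have : l = 0 := le_antisymm hl zero_le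
        rw [this] at hE'
        exact absurd hE' hE
    · rintro L ⟨z, hz, hB⟩
      by_cases hE : Ex s a a' (L + 1)
      · have hE0 := hE
        rw [hEx] at hE
        obtain ⟨z', hz', hG⟩ := hE
        refine ⟨z', hz', ?_⟩
        rw [hBst]
        intro l hl _
        rw [hGd] at hG ⊢
        intro l' hl'
        exact hG l' (hl'.trans hl)
      · refine ⟨z, hz, ?_⟩
        rw [hBst] at hB ⊢
        intro l hl hE'
        rcases hl.lt_or_eq with h | h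
        · exact hB l (hA.lt_succ.1 h) hE'
        · rw [h] at hE'
          exact absurd hE' hE
  -- the code of the graph
  obtain ⟨Γ, hΓ⟩ : ∃ Γ : M → Prop, Γ = fun i => ∃ s a a' z, i = AR.prN (AR.prN s (AR.prN a a')) z ∧
      z < c ∧ Bst s a a' z c := ⟨_, rfl⟩
  have hpr : ∀ {s t : (ℕ → M) → M}, AR.DF LA (Set.univ : Set M) s → AR.DF LA (Set.univ : Set M) t →
      AR.DF LA (Set.univ : Set M) (fun v => AR.prN (s v) (t v)) := fun hs ht =>
    hA.add (hA.mul (hA.add hs ht) (hA.add hs ht)) hs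
  have hΓd : AR.Dfn LA (Set.univ : Set M) (fun v => Γ (v 0)) := by
    rw [hΓ]
    have hBc : AR.Dfn LA (Set.univ : Set M) (fun v => Bst (v 0) (v 1) (v 2) (v 3) c) := by
      have h1 : AR.Dfn LA (Set.univ : Set M) (fun v => Bst (v 1) (v 2) (v 3) (v 4) (v 0)) :=
        dfn_ren5 hBd 1 2 3 4 0
      exact h1.subst (AR.dc_of_mem (Set.mem_univ c))
    have h1 : AR.Dfn LA (Set.univ : Set M) (fun w => w 4 = AR.prN (AR.prN (w 3) (AR.prN (w 2) (w 1)))
        (w 0) ∧ w 0 < c ∧ Bst (w 3) (w 2) (w 1) (w 0) c) := by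
      refine (AR.Dfn.eqT (AR.DF.var 4) (hpr (hpr (AR.DF.var 3) (hpr (AR.DF.var 2) (AR.DF.var 1)))
        (AR.DF.var 0))).and ((hA.lt (AR.DF.var 0) (AR.DF.par c)).and ?_)
      exact dfn_ren4 (R := fun s a a' z => Bst s a a' z c) hBc 3 2 1 0
    exact h1.ex.ex.ex.ex
  let N : M := AR.prN (AR.prN c (AR.prN c c)) c + 1
  obtain ⟨u, w, huw⟩ := hA.exists_div_code hΓd N
  have hkey : ∀ s a a' z : M, s < c → a < c → a' < c → z < c →
      ((AR.prN (AR.prN s (AR.prN a a')) z + 1) * w + 1 ∣ u ↔ Bst s a a' z c) := by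
    intro s a a' z hs ha ha' hz
    rw [huw _ (hA.lt_succ.2 (prN_mono (prN_mono hs.le (prN_mono ha.le ha'.le)) hz.le)), hΓ]
    constructor
    · rintro ⟨s1, a1, a1', z1, he, -, hB⟩
      obtain ⟨h1, h2⟩ := hA.prN_inj he
      obtain ⟨h3, h4⟩ := hA.prN_inj h1
      obtain ⟨h5, h6⟩ := hA.prN_inj h4
      rw [h2, h3, h5, h6]; exact hB
    · intro hB
      exact ⟨s, a, a', z, rfl, hz, hB⟩
  -- the computable search
  have hU : SR (Dg b) fun x : (ℕ × ℕ × ℕ) × ℕ => b x.2 < c ∧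
      (AR.prN (AR.prN ((x.1.1 : ℕ) : M) (AR.prN (cl c (b x.1.2.1)) (cl c (b x.1.2.2)))) (b x.2) + 1)
        * w + 1 ∣ u := by
    have ez : EF b fun x : (ℕ × ℕ × ℕ) × ℕ => b x.2 := ef_ind hc hb Primrec.snd
    have es : EF b fun x : (ℕ × ℕ × ℕ) × ℕ => ((x.1.1 : ℕ) : M) :=
      ef_cast hc hb (Primrec.fst.comp Primrec.fst)
    have ea : EF b fun x : (ℕ × ℕ × ℕ) × ℕ => cl c (b x.1.2.1) :=
      ef_cl hc hb c (ef_ind hc hb (Primrec.fst.comp (Primrec.snd.comp Primrec.fst)))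
    have ea' : EF b fun x : (ℕ × ℕ × ℕ) × ℕ => cl c (b x.1.2.2) :=
      ef_cl hc hb c (ef_ind hc hb (Primrec.snd.comp (Primrec.snd.comp Primrec.fst)))
    have e1 : EF b fun _ : (ℕ × ℕ × ℕ) × ℕ => (1 : M) := ef_const hc hb 1
    refine SR.and (sr_lt hc hb ez (ef_const hc hb c)) (sr_dvd hc hb ?_ (ef_const hc hb u))
    exact ef_add hc hb (ef_mul hc hb (ef_add hc hb (ef_prN hc hb (ef_prN hc hb es
      (ef_prN hc hb ea ea')) ez) e1) (ef_const hc hb w)) e1
  obtain ⟨f, hf, hfU⟩ := SR.choose (R := fun (x : ℕ × ℕ × ℕ) (z : ℕ) => b z < c ∧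
      (AR.prN (AR.prN ((x.1 : ℕ) : M) (AR.prN (cl c (b x.2.1)) (cl c (b x.2.2)))) (b z) + 1)
        * w + 1 ∣ u) hU (by
    rintro ⟨s, a, a'⟩
    obtain ⟨z, hz, hB⟩ := hbest (s : M) (cl c (b a)) (cl c (b a'))
    obtain ⟨i, rfl⟩ := hb z
    exact ⟨i, hz, (hkey _ _ _ _ (hcns s) (cl_lt hc0 _) (cl_lt hc0 _) hz).2 hB⟩)
  refine ⟨f, hf, ?_⟩
  rintro s a a' ⟨G, hG⟩ l
  obtain ⟨hz, hdv⟩ := hfU (s, a, a')
  rw [hkey _ _ _ _ (hcns s) (cl_lt hc0 _) (cl_lt hc0 _) hz] at hdv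
  rw [cl_of_lt hz]
  have hE : Ex (s : M) (cl c (b a)) (cl c (b a')) (l : M) := by
    rw [hEx]
    obtain ⟨m, hm⟩ := bits_pre_nat (M := M) hc.disc G l
    refine ⟨(m : M), hcns m, ?_⟩
    rw [hGd]
    intro l' hl'
    obtain ⟨j, hj, rfl⟩ := std_below hc l l' hl'
    rw [hH', hm j hj]
    exact hG j
  rw [hBst] at hdv
  have h1 := hdv (l : M) (hcns l).le hE
  rw [hGd] at h1
  have h2 := h1 (l : M) le_rfl
  rw [hH'] at h2
  exact h2

theorem sr_bits (hA : AR.Ari LA M) (c : M) :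
    SR (Dg b) fun x : (ℕ × ℕ) × Bool => bits (cl c (b x.1.1)) x.1.2 = x.2 := by
  have ex : EF b fun x : (ℕ × ℕ) × Bool => cl c (b x.1.1) :=
    ef_cl hc hb c (ef_ind hc hb (Primrec.fst.comp Primrec.fst))
  have ep : EF b fun x : (ℕ × ℕ) × Bool => ((2 ^ x.1.2 : ℕ) : M) :=
    ef_cast hc hb (g := fun x : (ℕ × ℕ) × Bool => 2 ^ x.1.2)
      (rp_primrec_pow.comp (Primrec.const 2) (Primrec.snd.comp Primrec.fst))
  have h1 : SR (Dg b) fun x : (ℕ × ℕ) × Bool => bitM (cl c (b x.1.1)) x.1.2 := by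
    unfold bitM
    refine sr_exM hb (P := fun (x : (ℕ × ℕ) × Bool) q => ∃ r, r < ((2 ^ x.1.2 : ℕ) : M) ∧
      cl c (b x.1.1) = q * (((2 ^ x.1.2 : ℕ) : M) + ((2 ^ x.1.2 : ℕ) : M)) +
        ((2 ^ x.1.2 : ℕ) : M) + r) ?_
    refine sr_exM hb (P := fun (x : ((ℕ × ℕ) × Bool) × ℕ) r => r < ((2 ^ x.1.1.2 : ℕ) : M) ∧
      cl c (b x.1.1.1) = b x.2 * (((2 ^ x.1.1.2 : ℕ) : M) + ((2 ^ x.1.1.2 : ℕ) : M)) +
        ((2 ^ x.1.1.2 : ℕ) : M) + r) ?_
    have ep' : EF b fun x : (((ℕ × ℕ) × Bool) × ℕ) × ℕ => ((2 ^ x.1.1.1.2 : ℕ) : M) :=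
      ep.comp (g := fun x : (((ℕ × ℕ) × Bool) × ℕ) × ℕ => x.1.1) (Primrec.fst.comp Primrec.fst)
    have ex' : EF b fun x : (((ℕ × ℕ) × Bool) × ℕ) × ℕ => cl c (b x.1.1.1.1) :=
      ex.comp (g := fun x : (((ℕ × ℕ) × Bool) × ℕ) × ℕ => x.1.1) (Primrec.fst.comp Primrec.fst)
    have er : EF b fun x : (((ℕ × ℕ) × Bool) × ℕ) × ℕ => b x.2 := ef_ind hc hb Primrec.snd
    have eq : EF b fun x : (((ℕ × ℕ) × Bool) × ℕ) × ℕ => b x.1.2 :=
      ef_ind hc hb (Primrec.snd.comp Primrec.fst)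
    exact SR.and (sr_lt hc hb er ep') (sr_eq hc hb ex' (ef_add hc hb (ef_add hc hb
      (ef_mul hc hb eq (ef_add hc hb ep' ep')) ep') er))
  have h2 : SR (Dg b) fun x : (ℕ × ℕ) × Bool => bitZ (cl c (b x.1.1)) x.1.2 := by
    unfold bitZ
    refine sr_exM hb (P := fun (x : (ℕ × ℕ) × Bool) q => ∃ r, r < ((2 ^ x.1.2 : ℕ) : M) ∧
      cl c (b x.1.1) = q * (((2 ^ x.1.2 : ℕ) : M) + ((2 ^ x.1.2 : ℕ) : M)) + r) ?_
    refine sr_exM hb (P := fun (x : ((ℕ × ℕ) × Bool) × ℕ) r => r < ((2 ^ x.1.1.2 : ℕ) : M) ∧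
      cl c (b x.1.1.1) = b x.2 * (((2 ^ x.1.1.2 : ℕ) : M) + ((2 ^ x.1.1.2 : ℕ) : M)) + r) ?_
    have ep' : EF b fun x : (((ℕ × ℕ) × Bool) × ℕ) × ℕ => ((2 ^ x.1.1.1.2 : ℕ) : M) :=
      ep.comp (g := fun x : (((ℕ × ℕ) × Bool) × ℕ) × ℕ => x.1.1) (Primrec.fst.comp Primrec.fst)
    have ex' : EF b fun x : (((ℕ × ℕ) × Bool) × ℕ) × ℕ => cl c (b x.1.1.1.1) :=
      ex.comp (g := fun x : (((ℕ × ℕ) × Bool) × ℕ) × ℕ => x.1.1) (Primrec.fst.comp Primrec.fst)
    have er : EF b fun x : (((ℕ × ℕ) × Bool) × ℕ) × ℕ => b x.2 := ef_ind hc hb Primrec.snd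
    have eq : EF b fun x : (((ℕ × ℕ) × Bool) × ℕ) × ℕ => b x.1.2 :=
      ef_ind hc hb (Primrec.snd.comp Primrec.fst)
    exact SR.and (sr_lt hc hb er ep') (sr_eq hc hb ex' (ef_add hc hb
      (ef_mul hc hb eq (ef_add hc hb ep' ep')) er))
  have h3 : SR (Dg b) fun x : (ℕ × ℕ) × Bool => (x.2 = true ∧ bitM (cl c (b x.1.1)) x.1.2) ∨
      (x.2 = false ∧ bitZ (cl c (b x.1.1)) x.1.2) :=
    SR.or (SR.and (SR.of_prim (Primrec.eq.comp Primrec.snd (Primrec.const true))) h1)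
      (SR.and (SR.of_prim (Primrec.eq.comp Primrec.snd (Primrec.const false))) h2)
  refine h3.of_eq ?_
  rintro ⟨⟨a, n⟩, v⟩
  have e1 := bit_or hA (cl c (b a)) n
  have e2 := bit_not_and hc.disc (cl c (b a)) n
  have e3 := bits_iff (cl c (b a)) n
  simp only
  cases v
  · simp only [Bool.false_eq_true, false_and, false_or, true_and]
    constructor
    · intro h
      by_contra hne
      exact e2 ⟨e3.2 (by simpa using hne), h⟩
    · intro h
      refine e1.resolve_left fun h' => ?_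
      rw [e3, h] at h'
      simp at h'
  · simp only [true_and, Bool.true_eq_false, false_and, or_false]
    exact e3

/-- The main construction: an upper bound of the coded sets strictly below the diagram. -/
theorem main_bound (hA : AR.Ari LA M) (hns : ∃ x : M, ∀ n : ℕ, x ≠ n) :
    ∃ B, TLe B (Dg b) ∧ ¬ TLe (Dg b) B ∧ ∀ (S : M → Prop) (X : ℕ → Bool),
      AR.Dfn LA (Set.univ : Set M) (fun v => S (v 0)) → (∀ n : ℕ, X n = true ↔ S n) → TLe X B := by
  obtain ⟨c, hcns⟩ := ns_gt hc hns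
  obtain ⟨B, h1, h2, h3⟩ := core (Dg b) (fun a => bits (cl c (b a))) (sr_bits hc hb hA c)
    (fun q hq => path_finder hc hb hA hcns hq)
  refine ⟨B, h1, h2, fun S X hS hX => ?_⟩
  obtain ⟨a, ha, haS⟩ := coded_below hc hA hcns hS
  obtain ⟨i, rfl⟩ := hb a
  have h4 : bits (cl c (b i)) = X := by
    funext n
    rw [cl_of_lt ha]
    have e1 := bits_iff (b i) n
    have e2 := haS n
    have e3 := hX n
    cases h : X n <;> cases h' : bits (b i) n <;> simp_all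
  have h5 := h3 i
  simp only [h4] at h5
  exact h5

end

end Pool.Agent.TH748.MU
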