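import Pool.Agent.Helper227.Test

/-!
Relative computable enumerability of relations on `Primcodable` types.
-/

set_option autoImplicit false

open Encodable
open Pool.Agent.Helper227

namespace Pool.Agent.TH748.MU

/-- `p` is computably enumerable relative to `D`. -/
def SR (D : ℕ → Bool) {α : Type} [Primcodable α] (p : α → Prop) : Prop :=
  ∃ G : List Bool × α → Prop, S1 G ∧ (∀ σ τ a, σ <+: τ → G (σ, a) → G (τ, a)) ∧
    ∀ a, p a ↔ ∃ s, G (pre D s, a)

namespace SR

variable {D : ℕ → Bool} {α β γ : Type} [Primcodable α] [Primcodable β] [Primcodable γ]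

theorem of_eq {p q : α → Prop} (hp : SR D p) (h : ∀ a, p a ↔ q a) : SR D q :=
  (funext fun a => propext (h a) : p = q) ▸ hp

theorem mk' {p : α → Prop} {G : List Bool × α → Prop} (hG : S1 G)
    (h : ∀ a, p a ↔ ∃ s, G (pre D s, a)) : SR D p := by
  refine ⟨fun x => ∃ k, k ≤ x.1.length ∧ G (x.1.take k, x.2), ?_, ?_, ?_⟩
  · refine S1.ex (p := fun (x : List Bool × α) (k : ℕ) => k ≤ x.1.length ∧ G (x.1.take k, x.2)) ?_
    refine S1.and (S1.of_prim ?_) (hG.comp ?_)
    · exact Primrec.nat_le.comp Primrec.snd (Primrec.list_length.comp (Primrec.fst.comp Primrec.fst))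
    · exact (Primrec.list_take.comp Primrec.snd (Primrec.fst.comp Primrec.fst)).pair
        (Primrec.snd.comp Primrec.fst)
  · rintro σ τ a h1 ⟨k, hk, hG'⟩
    have hl := h1.length_le
    refine ⟨k, le_trans hk hl, ?_⟩
    have : σ.take k = τ.take k := by
      rw [List.prefix_iff_eq_take] at h1
      rw [h1, List.take_take, min_eq_left hk]
    simp only at hG' ⊢
    rw [← this]; exact hG'
  · intro a
    rw [h]
    constructor
    · rintro ⟨s, hs⟩
      refine ⟨s, s, by simp, ?_⟩
      rw [take_pre _ _ _ le_rfl]; exact hs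
    · rintro ⟨s, k, hk, hG'⟩
      simp only [length_pre] at hk
      refine ⟨k, ?_⟩
      rwa [take_pre _ _ _ hk] at hG'

theorem of_s1 {p : α → Prop} (hp : S1 p) : SR D p :=
  ⟨fun x => p x.2, hp.comp Primrec.snd, fun _ _ _ _ h => h, fun a => by simp⟩

theorem of_prim {p : α → Prop} (hp : PrimrecPred p) : SR D p := of_s1 (S1.of_prim hp)

theorem comp {p : β → Prop} {f : α → β} (hp : SR D p) (hf : Primrec f) : SR D fun a => p (f a) := by
  obtain ⟨G, hG, hm, he⟩ := hp
  exact ⟨fun x => G (x.1, f x.2), hG.comp (Primrec.fst.pair (hf.comp Primrec.snd)),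
    fun σ τ a h => hm _ _ _ h, fun a => he _⟩

theorem and {p q : α → Prop} (hp : SR D p) (hq : SR D q) : SR D fun a => p a ∧ q a := by
  obtain ⟨G, hG, hm, he⟩ := hp
  obtain ⟨H, hH, hn, hf⟩ := hq
  refine ⟨fun x => G x ∧ H x, hG.and hH, fun σ τ a h h' => ⟨hm _ _ _ h h'.1, hn _ _ _ h h'.2⟩,
    fun a => ?_⟩
  show (p a ∧ q a) ↔ ∃ s, G (pre D s, a) ∧ H (pre D s, a)
  rw [he, hf]
  constructor
  · rintro ⟨⟨s, hs⟩, ⟨t, ht⟩⟩
    exact ⟨max s t, hm _ _ _ (pre_prefix _ (le_max_left _ _)) hs,
      hn _ _ _ (pre_prefix _ (le_max_right _ _)) ht⟩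
  · rintro ⟨s, h1, h2⟩
    exact ⟨⟨s, h1⟩, ⟨s, h2⟩⟩

theorem or {p q : α → Prop} (hp : SR D p) (hq : SR D q) : SR D fun a => p a ∨ q a := by
  obtain ⟨G, hG, hm, he⟩ := hp
  obtain ⟨H, hH, hn, hf⟩ := hq
  refine ⟨fun x => G x ∨ H x, hG.or hH, fun σ τ a h h' => h'.imp (hm _ _ _ h) (hn _ _ _ h),
    fun a => ?_⟩
  show (p a ∨ q a) ↔ ∃ s, G (pre D s, a) ∨ H (pre D s, a)
  rw [he, hf]
  exact exists_or.symm

theorem ex {p : α → β → Prop} (hp : SR D fun x : α × β => p x.1 x.2) : SR D fun a => ∃ b, p a b := by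
  obtain ⟨G, hG, hm, he⟩ := hp
  refine ⟨fun x => ∃ b, G (x.1, (x.2, b)), ?_, ?_, ?_⟩
  · refine S1.ex (p := fun (x : List Bool × α) (b : β) => G (x.1, (x.2, b))) ?_
    exact hG.comp ((Primrec.fst.comp Primrec.fst).pair ((Primrec.snd.comp Primrec.fst).pair
      Primrec.snd))
  · rintro σ τ a h ⟨b, hb⟩
    exact ⟨b, hm _ _ _ h hb⟩
  · intro a
    constructor
    · rintro ⟨b, hb⟩
      obtain ⟨s, hs⟩ := (he (a, b)).1 hb
      exact ⟨s, b, hs⟩
    · rintro ⟨s, b, hs⟩
      exact ⟨b, (he (a, b)).2 ⟨s, hs⟩⟩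

theorem all_mem {p : α → β → Prop} {f : α → List β} (hp : SR D fun x : α × β => p x.1 x.2)
    (hf : Primrec f) : SR D fun a => ∀ b ∈ f a, p a b := by
  obtain ⟨G, hG, hm, he⟩ := hp
  refine ⟨fun x => ∀ b ∈ f x.2, G (x.1, (x.2, b)), ?_, ?_, ?_⟩
  · refine S1.all_mem (p := fun (x : List Bool × α) (b : β) => G (x.1, (x.2, b)))
      (f := fun x => f x.2) ?_ (hf.comp Primrec.snd)
    exact hG.comp ((Primrec.fst.comp Primrec.fst).pair ((Primrec.snd.comp Primrec.fst).pair
      Primrec.snd))
  · intro σ τ a h h' b hb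
    exact hm _ _ _ h (h' b hb)
  · intro a
    have : ∀ L : List β, (∀ b ∈ L, p a b) ↔ ∃ s, ∀ b ∈ L, G (pre D s, (a, b)) := by
      intro L
      induction L with
      | nil => simp
      | cons c L ih =>
        simp only [List.mem_cons, forall_eq_or_imp, ih]
        have := he (a, c)
        simp only at this
        rw [this]
        constructor
        · rintro ⟨⟨s, hs⟩, ⟨t, ht⟩⟩
          exact ⟨max s t, hm _ _ _ (pre_prefix _ (le_max_left _ _)) hs,
            fun b hb => hm _ _ _ (pre_prefix _ (le_max_right _ _)) (ht b hb)⟩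
        · rintro ⟨s, h1, h2⟩
          exact ⟨⟨s, h1⟩, ⟨s, h2⟩⟩
    exact this _

theorem all_lt {p : α → ℕ → Prop} {f : α → ℕ} (hp : SR D fun x : α × ℕ => p x.1 x.2)
    (hf : Primrec f) : SR D fun a => ∀ b < f a, p a b :=
  (all_mem hp (Primrec.list_range.comp hf)).of_eq (by simp)

theorem oracle (D : ℕ → Bool) : SR D fun x : ℕ × Bool => D x.1 = x.2 := by
  refine mk' (G := fun x => x.2.1 < x.1.length ∧ x.1.getD x.2.1 false = x.2.2) (S1.of_prim ?_) ?_
  · refine PrimrecPred.and ?_ ?_
    · exact Primrec.nat_lt.comp (Primrec.fst.comp Primrec.snd) (Primrec.list_length.comp Primrec.fst)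
    · refine Primrec.eq.comp ?_ (Primrec.snd.comp Primrec.snd)
      exact (Primrec.list_getD false).comp Primrec.fst (Primrec.fst.comp Primrec.snd)
  · rintro ⟨n, v⟩
    constructor
    · intro h
      refine ⟨n + 1, by simp, ?_⟩
      show (pre D (n + 1)).getD n false = v
      rw [pre_getD _ _ _ _ (Nat.lt_succ_self n)]
      exact h
    · rintro ⟨s, h1, h2⟩
      simp only [length_pre] at h1
      rw [pre_getD _ _ _ _ h1] at h2
      exact h2

end SR

theorem tle_iff {X D : ℕ → Bool} : TLe X D ↔ SR D fun x : ℕ × Bool => X x.1 = x.2 := by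
  constructor
  · intro h
    obtain ⟨G, hG, _, he⟩ := recIn_graph (A := D) (f := chi X) (RecursiveIn.iff_nat.1 h)
    refine SR.mk' (G := fun x => G (x.1, x.2.1, x.2.2.toNat)) (hG.comp ?_) ?_
    · refine Primrec.fst.pair ((Primrec.fst.comp Primrec.snd).pair ?_)
      have : Primrec Bool.toNat := Primrec.dom_finite _
      exact this.comp (Primrec.snd.comp Primrec.snd)
    · rintro ⟨n, v⟩
      have h1 := he n v.toNat
      simp only [chi, Part.mem_some_iff] at h1
      rw [← h1]
      cases hx : X n <;> cases v <;> simp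
  · intro h
    obtain ⟨G, hG, _, he⟩ := h
    refine RecursiveIn.iff_nat.2 (recIn_of_graph (A := D) (f := chi X)
      (G := fun x => ∃ v : Bool, x.2.2 = v.toNat ∧ G (x.1, (x.2.1, v))) ?_ ?_)
    · refine S1.ex (p := fun (x : List Bool × ℕ × ℕ) (v : Bool) => x.2.2 = v.toNat ∧
        G (x.1, (x.2.1, v))) ?_
      refine S1.and (S1.of_prim ?_) (hG.comp ?_)
      · have : Primrec Bool.toNat := Primrec.dom_finite _
        exact Primrec.eq.comp (Primrec.snd.comp (Primrec.snd.comp Primrec.fst))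
          (this.comp Primrec.snd)
      · exact (Primrec.fst.comp Primrec.fst).pair ((Primrec.fst.comp (Primrec.snd.comp
          Primrec.fst)).pair Primrec.snd)
    · intro n m
      simp only [chi, Part.mem_some_iff]
      constructor
      · intro h
        obtain ⟨s, hs⟩ := (he (n, X n)).1 rfl
        exact ⟨s, X n, h, hs⟩
      · rintro ⟨s, v, hv, hG'⟩
        have h2 : X n = v := (he (n, v)).2 ⟨s, hG'⟩
        rw [h2, hv]

/-- relative enumerability is transitive -/
theorem SR.trans {X D : ℕ → Bool} (h : TLe X D) {α : Type} [Primcodable α] {p : α → Prop}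
    (hp : SR X p) : SR D p := by
  obtain ⟨G, hG, hm, he⟩ := hp
  have hX := tle_iff.1 h
  have h1 : SR D fun x : List Bool × ℕ => x.2 < x.1.length → X x.2 = x.1.getD x.2 false := by
    have h2 : SR D fun x : List Bool × ℕ => ¬ x.2 < x.1.length := SR.of_prim
      (PrimrecPred.not (Primrec.nat_lt.comp Primrec.snd (Primrec.list_length.comp Primrec.fst)))
    have h3 : SR D fun x : List Bool × ℕ => X x.2 = x.1.getD x.2 false :=
      hX.comp (f := fun x : List Bool × ℕ => (x.2, x.1.getD x.2 false))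
        (Primrec.snd.pair ((Primrec.list_getD false).comp Primrec.fst Primrec.snd))
    exact (h2.or h3).of_eq fun x => by tauto
  have h4 : SR D fun σ : List Bool => ∀ i < σ.length, (i < σ.length → X i = σ.getD i false) :=
    SR.all_lt (p := fun (σ : List Bool) (i : ℕ) => i < σ.length → X i = σ.getD i false) h1
      Primrec.list_length
  have h5 : SR D fun σ : List Bool => ∃ s, σ = pre X s := by
    refine h4.of_eq fun σ => ?_
    constructor
    · intro h
      refine ⟨σ.length, List.ext_getElem (by simp) fun i hi hi' => ?_⟩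
      rw [getElem_pre, h i hi hi]
      simp [List.getD, hi]
    · rintro ⟨s, rfl⟩ i hi _
      rw [length_pre] at hi
      rw [pre_getD _ _ _ _ hi]
  have h6 : SR D fun a => ∃ σ : List Bool, (∃ s, σ = pre X s) ∧ G (σ, a) := by
    refine SR.ex (p := fun (a : α) (σ : List Bool) => (∃ s, σ = pre X s) ∧ G (σ, a)) ?_
    exact (h5.comp Primrec.snd).and (SR.of_s1 (hG.comp (Primrec.snd.pair Primrec.fst)))
  refine h6.of_eq fun a => ?_
  rw [he]
  constructor
  · rintro ⟨σ, ⟨s, rfl⟩, h⟩
    exact ⟨s, h⟩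
  · rintro ⟨s, h⟩
    exact ⟨_, ⟨s, rfl⟩, h⟩

/-- uniformization -/
theorem SR.choose {D : ℕ → Bool} {α β : Type} [Primcodable α] [Primcodable β]
    {R : α → β → Prop} (hR : SR D fun x : α × β => R x.1 x.2) (ht : ∀ a, ∃ b, R a b) :
    ∃ f : α → β, SR D (fun x : α × β => f x.1 = x.2) ∧ ∀ a, R a (f a) := by
  classical
  obtain ⟨G, ⟨q, hq, mq, eq⟩, hm, he⟩ := hR
  -- the test on strings
  let C : List Bool → α → ℕ → (ℕ × β × ℕ) → Prop := fun σ a t x =>
    q (σ.take x.1, (a, x.2.1)) x.2.2
  let T : (ℕ × β × ℕ) → ℕ := fun x => encode x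
  have hdec : ∀ t : ℕ, ∀ x ∈ (decode (α := ℕ × β × ℕ) t).toList, x.1 ≤ t := by
    intro t x hx
    rw [Option.mem_toList] at hx
    have h1 : (decode (α := ℕ × β × ℕ) t) = (decode (α := ℕ) (Nat.unpair t).1).bind fun a =>
        (decode (α := β × ℕ) (Nat.unpair t).2).map (Prod.mk a) := Encodable.decode_prod_val t
    rw [h1] at hx
    simp only [decode_nat, Option.bind_some, Option.map_eq_some_iff] at hx
    obtain ⟨y, _, rfl⟩ := hx
    exact Nat.unpair_left_le t
  let K : List Bool → α → ℕ → Prop := fun σ a t =>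
    ∃ x ∈ (decode (α := ℕ × β × ℕ) t).toList, q (σ.take x.1, (a, x.2.1)) x.2.2
  have hKt : ∀ (a : α) (t s : ℕ), t ≤ s → (K (pre D s) a t ↔ K (pre D t) a t) := by
    intro a t s hts
    constructor
    · rintro ⟨x, hx, h⟩
      have := hdec t x hx
      refine ⟨x, hx, ?_⟩
      rw [take_pre _ _ _ (le_trans this hts)] at h
      rw [take_pre _ _ _ this]; exact h
    · rintro ⟨x, hx, h⟩
      have := hdec t x hx
      refine ⟨x, hx, ?_⟩
      rw [take_pre _ _ _ this] at h
      rw [take_pre _ _ _ (le_trans this hts)]; exact h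
  have hex : ∀ a, ∃ t, K (pre D t) a t := by
    intro a
    obtain ⟨b, hb⟩ := ht a
    obtain ⟨s, hs⟩ := (he (a, b)).1 hb
    obtain ⟨n, hn⟩ := (eq _).1 hs
    refine ⟨encode (s, b, n), (s, b, n), by simp, ?_⟩
    have h1 : s ≤ encode (s, b, n) := hdec _ (s, b, n) (by simp)
    simp only
    rw [take_pre _ _ _ h1]; exact hn
  let t0 : α → ℕ := fun a => Nat.find (hex a)
  have ht0 : ∀ a, ∃ x, decode (α := ℕ × β × ℕ) (t0 a) = some x ∧
      q ((pre D (t0 a)).take x.1, (a, x.2.1)) x.2.2 := by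
    intro a
    obtain ⟨x, hx, h⟩ := Nat.find_spec (hex a)
    exact ⟨x, by simpa using hx, h⟩
  choose X hX1 hX2 using ht0
  refine ⟨fun a => (X a).2.1, ?_, ?_⟩
  · -- the graph
    refine SR.mk' (G := fun x : List Bool × α × β => ∃ t < x.1.length,
      (∃ y ∈ (decode (α := ℕ × β × ℕ) t).toList, q (x.1.take y.1, (x.2.1, y.2.1)) y.2.2 ∧
        y.2.1 = x.2.2) ∧ ∀ t' < t, ¬ ∃ y ∈ (decode (α := ℕ × β × ℕ) t').toList,
          q (x.1.take y.1, (x.2.1, y.2.1)) y.2.2) (S1.of_prim ?_) ?_
    · have hK : PrimrecPred fun z : (List Bool × α) × ℕ =>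
          ∃ y ∈ (decode (α := ℕ × β × ℕ) z.2).toList, q (z.1.1.take y.1, (z.1.2, y.2.1)) y.2.2 := by
        refine PP.ex_mem (α := (List Bool × α) × ℕ)
          (f := fun z => (decode (α := ℕ × β × ℕ) z.2).toList)
          (p := fun z y => q (z.1.1.take y.1, (z.1.2, y.2.1)) y.2.2) ?_ ?_
        · refine hq.comp (Primrec.pair ?_ (Primrec.pair ?_ ?_)) ?_
          · exact Primrec.list_take.comp (Primrec.fst.comp Primrec.snd)
              (Primrec.fst.comp (Primrec.fst.comp Primrec.fst))
          · exact Primrec.snd.comp (Primrec.fst.comp Primrec.fst)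
          · exact Primrec.fst.comp (Primrec.snd.comp Primrec.snd)
          · exact Primrec.snd.comp (Primrec.snd.comp Primrec.snd)
        · exact Primrec.optionToList.comp (Primrec.decode.comp Primrec.snd)
      refine PP.ex_lt (α := List Bool × α × β) (f := fun x => x.1.length)
        (p := fun x t => (∃ y ∈ (decode (α := ℕ × β × ℕ) t).toList,
          q (x.1.take y.1, (x.2.1, y.2.1)) y.2.2 ∧ y.2.1 = x.2.2) ∧
          ∀ t' < t, ¬ ∃ y ∈ (decode (α := ℕ × β × ℕ) t').toList,
          q (x.1.take y.1, (x.2.1, y.2.1)) y.2.2) ?_ (Primrec.list_length.comp Primrec.fst)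
      refine PrimrecPred.and ?_ ?_
      · refine PP.ex_mem (α := (List Bool × α × β) × ℕ)
          (f := fun z => (decode (α := ℕ × β × ℕ) z.2).toList)
          (p := fun z y => q (z.1.1.take y.1, (z.1.2.1, y.2.1)) y.2.2 ∧ y.2.1 = z.1.2.2) ?_ ?_
        · refine PrimrecPred.and (hq.comp (Primrec.pair ?_ (Primrec.pair ?_ ?_)) ?_)
            (Primrec.eq.comp ?_ ?_)
          · exact Primrec.list_take.comp (Primrec.fst.comp Primrec.snd)
              (Primrec.fst.comp (Primrec.fst.comp Primrec.fst))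
          · exact Primrec.fst.comp (Primrec.snd.comp (Primrec.fst.comp Primrec.fst))
          · exact Primrec.fst.comp (Primrec.snd.comp Primrec.snd)
          · exact Primrec.snd.comp (Primrec.snd.comp Primrec.snd)
          · exact Primrec.fst.comp (Primrec.snd.comp Primrec.snd)
          · exact Primrec.snd.comp (Primrec.snd.comp (Primrec.fst.comp Primrec.fst))
        · exact Primrec.optionToList.comp (Primrec.decode.comp Primrec.snd)
      · refine PP.all_lt (α := (List Bool × α × β) × ℕ) (f := fun z => z.2)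
          (p := fun z t' => ¬ ∃ y ∈ (decode (α := ℕ × β × ℕ) t').toList,
          q (z.1.1.take y.1, (z.1.2.1, y.2.1)) y.2.2) ?_ Primrec.snd
        refine PrimrecPred.not (hK.comp (f := fun w : ((List Bool × α × β) × ℕ) × ℕ =>
          ((w.1.1.1, w.1.1.2.1), w.2)) ?_)
        exact ((Primrec.fst.comp (Primrec.fst.comp Primrec.fst)).pair (Primrec.fst.comp
          (Primrec.snd.comp (Primrec.fst.comp Primrec.fst)))).pair Primrec.snd
    · rintro ⟨a, b⟩
      simp only
      constructor
      · intro hb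
        refine ⟨t0 a + 1, t0 a, by simp, ⟨X a, by simp [hX1], ?_, hb⟩, ?_⟩
        · have h1 := hdec (t0 a) (X a) (by simp [hX1])
          have h2 := hX2 a
          rw [take_pre _ _ _ h1] at h2
          rw [take_pre _ _ _ (le_trans h1 (Nat.le_succ _))]
          exact h2
        · intro t' ht' hcon
          have h1 : K (pre D (t0 a + 1)) a t' := hcon
          rw [hKt _ _ _ (by omega)] at h1
          exact Nat.find_min (hex a) ht' h1
      · rintro ⟨s, t, hts, ⟨y, hy, hq1, hyb⟩, hmin⟩
        simp only [length_pre] at hts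
        have h1 : K (pre D s) a t := ⟨y, hy, hq1⟩
        rw [hKt _ _ _ hts.le] at h1
        have h2 : t0 a ≤ t := Nat.find_min' (hex a) h1
        have h3 : ¬ t0 a < t := by
          intro hlt
          apply hmin _ hlt
          have h4 : K (pre D (t0 a)) a (t0 a) := Nat.find_spec (hex a)
          rw [← hKt _ _ s (by omega)] at h4
          exact h4
        have h5 : t = t0 a := by omega
        subst h5
        have h6 : X a = y := by
          have := hX1 a
          have h7 : decode (α := ℕ × β × ℕ) (t0 a) = some y := by simpa using hy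
          rw [this] at h7
          exact Option.some_injective _ h7
        rw [h6]; exact hyb
  · intro a
    have h1 := hdec (t0 a) (X a) (by simp [hX1])
    have h2 := hX2 a
    rw [take_pre _ _ _ h1] at h2
    exact (he (a, (X a).2.1)).2 ⟨(X a).1, (eq _).2 ⟨_, h2⟩⟩

end Pool.Agent.TH748.MU
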