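import Pool.Agent.TH748.MU.Rel
import Pool.Agent.Helper227.ENJ.P_rep_pre

/-!
A universal `{0,1}`-valued partial functional; the class of the sequences all of whose columns are
total extensions of the universal function relative to the preceding columns.
-/

set_option autoImplicit false

open Encodable
open Pool.Agent.Helper227 Pool.Agent.Helper227.EN
open Nat.Partrec (Code)

namespace Pool.Agent.TH748.MU

/-- convergence of a code in `r` steps -/
def hlt (c : Code) (r : ℕ) (x : List Bool × ℕ × Bool) : Prop :=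
  (c.evaln r (encode x)).isSome = true

theorem primrec_hlt : PrimrecPred fun y : (Code × ℕ) × (List Bool × ℕ × Bool) =>
    hlt y.1.1 y.1.2 y.2 := by
  unfold hlt
  refine Primrec.eq.comp (Primrec.option_isSome.comp (Nat.Partrec.Code.primrec_evaln.comp
    (((Primrec.snd.comp Primrec.fst).pair (Primrec.fst.comp Primrec.fst)).pair
      (Primrec.encode.comp Primrec.snd)))) (Primrec.const true)

theorem exists_hlt {E : List Bool × ℕ × Bool → Prop} (hE : S1 E) :
    ∃ c : Code, ∀ x, E x ↔ ∃ r, hlt c r x := by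
  obtain ⟨c, hc⟩ := Nat.Partrec.Code.exists_code.1 hE.re
  refine ⟨c, fun x => ?_⟩
  have h1 : (c.eval (encode x)).Dom ↔ E x := by
    rw [hc]
    simp [Part.assert]
  rw [← h1]
  constructor
  · intro h
    obtain ⟨y, hy⟩ := Part.dom_iff_mem.1 h
    obtain ⟨k, hk⟩ := Nat.Partrec.Code.evaln_complete.1 hy
    exact ⟨k, Option.isSome_iff_exists.2 ⟨y, hk⟩⟩
  · rintro ⟨n, hn⟩
    obtain ⟨y, hy⟩ := Option.isSome_iff_exists.1 hn
    exact Part.dom_iff_mem.2 ⟨y, Nat.Partrec.Code.evaln_sound hy⟩

theorem hlt_mono {c : Code} {r r' : ℕ} (h : r ≤ r') {x : List Bool × ℕ × Bool}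
    (hx : hlt c r x) : hlt c r' x := by
  unfold hlt at *
  rw [Option.isSome_iff_exists] at hx ⊢
  obtain ⟨y, hy⟩ := hx
  exact ⟨y, Nat.Partrec.Code.evaln_mono h hy⟩

/-- the output `b` on input `e` is found at stage `l` -/
def FF (l : ℕ) (σ : List Bool) (e : ℕ) (b : Bool) : Prop :=
  ∃ k < l + 1, hlt (Denumerable.ofNat Code (Nat.unpair e).1) l (σ.take k, e, b)

/-- the universal function on strings -/
def UR (σ : List Bool) (e : ℕ) (b : Bool) : Prop :=
  ∃ l < σ.length + 1, (FF l σ e b ∧ (b = true ∨ ¬ FF l σ e true)) ∧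
    ∀ l' < l, ¬ (FF l' σ e true ∨ FF l' σ e false)

theorem primrec_FF : PrimrecPred fun x : ℕ × List Bool × ℕ × Bool => FF x.1 x.2.1 x.2.2.1 x.2.2.2 := by
  unfold FF
  refine PP.ex_lt (α := ℕ × List Bool × ℕ × Bool) (f := fun x => x.1 + 1)
    (p := fun x k => hlt (Denumerable.ofNat Code (Nat.unpair x.2.2.1).1) x.1
      (x.2.1.take k, x.2.2.1, x.2.2.2)) ?_ (Primrec.succ.comp Primrec.fst)
  refine primrec_hlt.comp (f := fun z : (ℕ × List Bool × ℕ × Bool) × ℕ =>
    ((Denumerable.ofNat Code (Nat.unpair z.1.2.2.1).1, z.1.1),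
      (z.1.2.1.take z.2, z.1.2.2.1, z.1.2.2.2))) ?_
  have e1 : Primrec fun z : (ℕ × List Bool × ℕ × Bool) × ℕ => z.1.2.2.1 :=
    Primrec.fst.comp (Primrec.snd.comp (Primrec.snd.comp Primrec.fst))
  refine Primrec.pair (Primrec.pair ?_ (Primrec.fst.comp Primrec.fst)) (Primrec.pair ?_
    (Primrec.pair e1 (Primrec.snd.comp (Primrec.snd.comp (Primrec.snd.comp Primrec.fst)))))
  · exact (Primrec.ofNat Code).comp (Primrec.fst.comp (Primrec.unpair.comp e1))
  · exact Primrec.list_take.comp Primrec.snd (Primrec.fst.comp (Primrec.snd.comp Primrec.fst))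

theorem primrec_UR : PrimrecPred fun x : List Bool × ℕ × Bool => UR x.1 x.2.1 x.2.2 := by
  unfold UR
  refine PP.ex_lt (α := List Bool × ℕ × Bool) (f := fun x => x.1.length + 1)
    (p := fun x l => (FF l x.1 x.2.1 x.2.2 ∧ (x.2.2 = true ∨ ¬ FF l x.1 x.2.1 true)) ∧
      ∀ l' < l, ¬ (FF l' x.1 x.2.1 true ∨ FF l' x.1 x.2.1 false)) ?_
    (Primrec.succ.comp (Primrec.list_length.comp Primrec.fst))
  refine PrimrecPred.and (PrimrecPred.and ?_ (PrimrecPred.or ?_ (PrimrecPred.not ?_))) ?_
  · exact primrec_FF.comp (f := fun z : (List Bool × ℕ × Bool) × ℕ =>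
      (z.2, z.1.1, z.1.2.1, z.1.2.2)) (Primrec.snd.pair ((Primrec.fst.comp Primrec.fst).pair
        ((Primrec.fst.comp (Primrec.snd.comp Primrec.fst)).pair
          (Primrec.snd.comp (Primrec.snd.comp Primrec.fst)))))
  · exact Primrec.eq.comp (Primrec.snd.comp (Primrec.snd.comp Primrec.fst)) (Primrec.const true)
  · exact primrec_FF.comp (f := fun z : (List Bool × ℕ × Bool) × ℕ =>
      (z.2, z.1.1, z.1.2.1, true)) (Primrec.snd.pair ((Primrec.fst.comp Primrec.fst).pair
        ((Primrec.fst.comp (Primrec.snd.comp Primrec.fst)).pair (Primrec.const true))))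
  · refine PP.all_lt (α := (List Bool × ℕ × Bool) × ℕ) (f := fun z => z.2)
      (p := fun z l' => ¬ (FF l' z.1.1 z.1.2.1 true ∨ FF l' z.1.1 z.1.2.1 false)) ?_ Primrec.snd
    have h : ∀ b : Bool, PrimrecPred fun z : ((List Bool × ℕ × Bool) × ℕ) × ℕ =>
        FF z.2 z.1.1.1 z.1.1.2.1 b := fun b =>
      primrec_FF.comp (f := fun z : ((List Bool × ℕ × Bool) × ℕ) × ℕ =>
        (z.2, z.1.1.1, z.1.1.2.1, b)) (Primrec.snd.pair
          ((Primrec.fst.comp (Primrec.fst.comp Primrec.fst)).pair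
          ((Primrec.fst.comp (Primrec.snd.comp (Primrec.fst.comp Primrec.fst))).pair
            (Primrec.const b))))
    exact PrimrecPred.not (PrimrecPred.or (h true) (h false))

theorem FF_pre (Z : ℕ → Bool) {l s : ℕ} (h : l ≤ s) (e : ℕ) (b : Bool) :
    FF l (pre Z s) e b ↔ FF l (pre Z l) e b := by
  unfold FF
  refine exists_congr fun k => and_congr_right fun hk => ?_
  rw [take_pre _ _ _ (by omega), take_pre _ _ _ (by omega)]

/-- the universal function with an oracle -/
def UU (Z : ℕ → Bool) (e : ℕ) (b : Bool) : Prop := ∃ s, UR (pre Z s) e b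

theorem UU_iff (Z : ℕ → Bool) (e : ℕ) (b : Bool) : UU Z e b ↔
    ∃ l, (FF l (pre Z l) e b ∧ (b = true ∨ ¬ FF l (pre Z l) e true)) ∧
      ∀ l' < l, ¬ (FF l' (pre Z l') e true ∨ FF l' (pre Z l') e false) := by
  constructor
  · rintro ⟨s, l, hl, h1, h2⟩
    simp only [length_pre] at hl
    refine ⟨l, ?_, fun l' hl' => ?_⟩
    · have hA : ∀ b, FF l (pre Z s) e b ↔ FF l (pre Z l) e b := fun b => FF_pre Z (by omega) e b
      rwa [hA, hA] at h1
    · have hA : ∀ b, FF l' (pre Z s) e b ↔ FF l' (pre Z l') e b := fun b => FF_pre Z (by omega) e b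
      have := h2 l' hl'
      rwa [hA, hA] at this
  · rintro ⟨l, h1, h2⟩
    refine ⟨l, l, by simp, h1, fun l' hl' => ?_⟩
    have hA : ∀ b, FF l' (pre Z l) e b ↔ FF l' (pre Z l') e b := fun b => FF_pre Z (by omega) e b
    rw [hA, hA]
    exact h2 l' hl'

theorem UU_unique {Z : ℕ → Bool} {e : ℕ} {b b' : Bool} (h : UU Z e b) (h' : UU Z e b') : b = b' := by
  rw [UU_iff] at h h'
  obtain ⟨l, ⟨h1, h2⟩, h3⟩ := h
  obtain ⟨l', ⟨h1', h2'⟩, h3'⟩ := h'
  have e1 : ¬ l < l' := fun hh => h3' l hh (by cases b <;> simp_all)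
  have e2 : ¬ l' < l := fun hh => h3 l' hh (by cases b' <;> simp_all)
  have e3 : l = l' := by omega
  subst e3
  cases b <;> cases b' <;> simp_all

/-- strings suffice -/
theorem UU_mono {Z : ℕ → Bool} {e : ℕ} {b : Bool} (h : UU Z e b) :
    ∃ s0, ∀ s, s0 ≤ s → UR (pre Z s) e b := by
  rw [UU_iff] at h
  obtain ⟨l, h1, h2⟩ := h
  refine ⟨l, fun s hs => ⟨l, by simp; omega, ?_, fun l' hl' => ?_⟩⟩
  · rw [FF_pre Z hs, FF_pre Z hs]; exact h1
  · have hA : ∀ b, FF l' (pre Z s) e b ↔ FF l' (pre Z l') e b := fun b => FF_pre Z (by omega) e b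
    rw [hA, hA]; exact h2 l' hl'

/-- universality -/
theorem UU_univ {W : List Bool × ℕ × Bool → Prop} {c : Code} (hc : ∀ x, W x ↔ ∃ r, hlt c r x)
    {Z : ℕ → Bool} {e : ℕ} (he : (Nat.unpair e).1 = encode c) (h : ∃ s b, W (pre Z s, e, b)) :
    ∃ b, UU Z e b ∧ ∃ s, W (pre Z s, e, b) := by
  classical
  have hc' : Denumerable.ofNat Code (Nat.unpair e).1 = c := by
    rw [he, Denumerable.ofNat_encode]
  have hsnd : ∀ l b, FF l (pre Z l) e b → ∃ s, W (pre Z s, e, b) := by
    rintro l b ⟨k, hk, h1⟩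
    rw [hc', take_pre _ _ _ (by omega)] at h1
    exact ⟨k, (hc _).2 ⟨_, h1⟩⟩
  have hex : ∃ l, FF l (pre Z l) e true ∨ FF l (pre Z l) e false := by
    obtain ⟨s, b, h⟩ := h
    obtain ⟨r, hr⟩ := (hc _).1 h
    have : FF (max s r) (pre Z (max s r)) e b := by
      refine ⟨s, by omega, ?_⟩
      rw [hc', take_pre _ _ _ (le_max_left _ _)]
      exact hlt_mono (le_max_right _ _) hr
    refine ⟨max s r, ?_⟩
    cases b
    · exact Or.inr this
    · exact Or.inl this
  let l := Nat.find hex
  have hl := Nat.find_spec hex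
  by_cases ht : FF l (pre Z l) e true
  · refine ⟨true, (UU_iff _ _ _).2 ⟨l, ⟨ht, Or.inl rfl⟩, fun l' hl' => Nat.find_min hex hl'⟩, ?_⟩
    exact hsnd _ _ ht
  · have hf : FF l (pre Z l) e false := hl.resolve_left ht
    refine ⟨false, (UU_iff _ _ _).2 ⟨l, ⟨hf, Or.inr ht⟩, fun l' hl' => Nat.find_min hex hl'⟩, ?_⟩
    exact hsnd _ _ hf

/-! ### masks -/

/-- the columns `1, ..., k` -/
def mask (k : ℕ) (G : ℕ → Bool) : ℕ → Bool := fun z =>
  if 1 ≤ (Nat.unpair z).1 ∧ (Nat.unpair z).1 ≤ k then G z else false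

/-- the columns `1, 2, ...` -/
def maskI (G : ℕ → Bool) : ℕ → Bool := fun z => if 1 ≤ (Nat.unpair z).1 then G z else false

/-- the mask on strings -/
def mstr (k : ℕ) (σ : List Bool) : List Bool :=
  (List.range σ.length).map fun z =>
    if 1 ≤ (Nat.unpair z).1 ∧ (Nat.unpair z).1 ≤ k then σ.getD z false else false

theorem mstr_pre (k : ℕ) (G : ℕ → Bool) (s : ℕ) : mstr k (pre G s) = pre (mask k G) s := by
  unfold mstr
  rw [length_pre]
  refine List.map_congr_left fun z hz => ?_
  rw [List.mem_range] at hz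
  simp only [mask, pre_getD _ _ _ _ hz]

theorem mstr_preI (G : ℕ → Bool) (s : ℕ) : mstr s (pre G s) = pre (maskI G) s := by
  rw [mstr_pre]
  refine List.map_congr_left fun z hz => ?_
  rw [List.mem_range] at hz
  have := Nat.unpair_left_le z
  unfold mask maskI
  by_cases h : 1 ≤ (Nat.unpair z).1
  · rw [if_pos ⟨h, by omega⟩, if_pos h]
  · rw [if_neg (fun h' => h h'.1), if_neg h]

theorem primrec_mstr : Primrec₂ mstr := by
  refine Primrec.list_map (Primrec.list_range.comp (Primrec.list_length.comp Primrec.snd)) ?_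
  have h1 : Primrec fun y : (ℕ × List Bool) × ℕ => (Nat.unpair y.2).1 :=
    Primrec.fst.comp (Primrec.unpair.comp Primrec.snd)
  refine Primrec.ite (PrimrecPred.and (Primrec.nat_le.comp (Primrec.const 1) h1)
    (Primrec.nat_le.comp h1 (Primrec.fst.comp Primrec.fst))) ?_ (Primrec.const false)
  exact (Primrec.list_getD false).comp (Primrec.snd.comp Primrec.fst) Primrec.snd

/-! ### the class -/

/-- violation of the conditions on the columns, for strings -/
def Bad (z : List Bool) : Prop :=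
  (∃ k < z.length, ∃ e < z.length, ∃ b ∈ [true, false], UR (mstr k z) e b ∧
      Nat.pair (k + 1) e < z.length ∧ ¬ z.getD (Nat.pair (k + 1) e) false = b) ∨
    ∃ e < z.length, ∃ b ∈ [true, false], UR (mstr z.length z) e b ∧
      Nat.pair 0 e < z.length ∧ ¬ z.getD (Nat.pair 0 e) false = b

theorem primrec_Bad : PrimrecPred Bad := by
  unfold Bad
  refine PrimrecPred.or ?_ ?_
  · refine PP.ex_lt (α := List Bool) (f := fun z => z.length)
      (p := fun z k => ∃ e < z.length, ∃ b ∈ [true, false], UR (mstr k z) e b ∧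
        Nat.pair (k + 1) e < z.length ∧ ¬ z.getD (Nat.pair (k + 1) e) false = b) ?_
      Primrec.list_length
    refine PP.ex_lt (α := List Bool × ℕ) (f := fun x => x.1.length)
      (p := fun x e => ∃ b ∈ [true, false], UR (mstr x.2 x.1) e b ∧
        Nat.pair (x.2 + 1) e < x.1.length ∧ ¬ x.1.getD (Nat.pair (x.2 + 1) e) false = b) ?_
      (Primrec.list_length.comp Primrec.fst)
    refine PP.ex_mem (α := (List Bool × ℕ) × ℕ) (f := fun _ => [true, false])
      (p := fun x b => UR (mstr x.1.2 x.1.1) x.2 b ∧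
        Nat.pair (x.1.2 + 1) x.2 < x.1.1.length ∧ ¬ x.1.1.getD (Nat.pair (x.1.2 + 1) x.2) false = b)
      ?_ (Primrec.const _)
    have ez : Primrec fun x : ((List Bool × ℕ) × ℕ) × Bool => x.1.1.1 :=
      Primrec.fst.comp (Primrec.fst.comp Primrec.fst)
    have ek : Primrec fun x : ((List Bool × ℕ) × ℕ) × Bool => x.1.1.2 :=
      Primrec.snd.comp (Primrec.fst.comp Primrec.fst)
    have ee : Primrec fun x : ((List Bool × ℕ) × ℕ) × Bool => x.1.2 :=
      Primrec.snd.comp Primrec.fst
    have ep : Primrec fun x : ((List Bool × ℕ) × ℕ) × Bool => Nat.pair (x.1.1.2 + 1) x.1.2 :=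
      Primrec₂.natPair.comp (Primrec.succ.comp ek) ee
    refine PrimrecPred.and ?_ (PrimrecPred.and (Primrec.nat_lt.comp ep (Primrec.list_length.comp ez))
      (PrimrecPred.not (Primrec.eq.comp ((Primrec.list_getD false).comp ez ep) Primrec.snd)))
    exact primrec_UR.comp (f := fun x : ((List Bool × ℕ) × ℕ) × Bool =>
      (mstr x.1.1.2 x.1.1.1, x.1.2, x.2)) ((primrec_mstr.comp ek ez).pair (ee.pair Primrec.snd))
  · refine PP.ex_lt (α := List Bool) (f := fun z => z.length)
      (p := fun z e => ∃ b ∈ [true, false], UR (mstr z.length z) e b ∧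
        Nat.pair 0 e < z.length ∧ ¬ z.getD (Nat.pair 0 e) false = b) ?_ Primrec.list_length
    refine PP.ex_mem (α := List Bool × ℕ) (f := fun _ => [true, false])
      (p := fun x b => UR (mstr x.1.length x.1) x.2 b ∧
        Nat.pair 0 x.2 < x.1.length ∧ ¬ x.1.getD (Nat.pair 0 x.2) false = b)
      ?_ (Primrec.const _)
    have ez : Primrec fun x : (List Bool × ℕ) × Bool => x.1.1 := Primrec.fst.comp Primrec.fst
    have ee : Primrec fun x : (List Bool × ℕ) × Bool => x.1.2 := Primrec.snd.comp Primrec.fst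
    have ep : Primrec fun x : (List Bool × ℕ) × Bool => Nat.pair 0 x.1.2 :=
      Primrec₂.natPair.comp (Primrec.const 0) ee
    refine PrimrecPred.and ?_ (PrimrecPred.and (Primrec.nat_lt.comp ep (Primrec.list_length.comp ez))
      (PrimrecPred.not (Primrec.eq.comp ((Primrec.list_getD false).comp ez ep) Primrec.snd)))
    exact primrec_UR.comp (f := fun x : (List Bool × ℕ) × Bool =>
      (mstr x.1.1.length x.1.1, x.1.2, x.2))
      ((primrec_mstr.comp (Primrec.list_length.comp ez) ez).pair (ee.pair Primrec.snd))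

/-- all the columns extend the universal functions -/
theorem bad_iff (G : ℕ → Bool) : (∀ s, ¬ Bad (pre G s)) ↔
    (∀ k e b, UU (mask k G) e b → G (Nat.pair (k + 1) e) = b) ∧
      ∀ e b, UU (maskI G) e b → G (Nat.pair 0 e) = b := by
  have hb : ∀ b : Bool, b ∈ [true, false] := by intro b; cases b <;> simp
  constructor
  · intro h
    constructor
    · intro k e b hU
      by_contra hne
      obtain ⟨s0, hs⟩ := UU_mono hU
      let s := s0 + k + e + Nat.pair (k + 1) e + 1
      refine h s (Or.inl ⟨k, by simp [s]; omega, e, by simp [s]; omega, b, hb b, ?_, ?_, ?_⟩)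
      · rw [mstr_pre]; exact hs s (by simp [s]; omega)
      · simp [s]
      · rw [pre_getD _ _ _ _ (by simp [s])]; exact hne
    · intro e b hU
      by_contra hne
      obtain ⟨s0, hs⟩ := UU_mono hU
      let s := s0 + e + Nat.pair 0 e + 1
      refine h s (Or.inr ⟨e, by simp [s]; omega, b, hb b, ?_, ?_, ?_⟩)
      · rw [length_pre, mstr_preI]; exact hs s (by simp [s]; omega)
      · simp [s]
      · rw [pre_getD _ _ _ _ (by simp [s])]; exact hne
  · rintro ⟨h1, h2⟩ s (⟨k, hk, e, he, b, -, hU, hp, hne⟩ | ⟨e, he, b, -, hU, hp, hne⟩)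
    · rw [mstr_pre] at hU
      rw [length_pre] at hp
      rw [pre_getD _ _ _ _ hp] at hne
      exact hne (h1 k e b ⟨s, hU⟩)
    · rw [length_pre, mstr_preI] at hU
      rw [length_pre] at hp
      rw [pre_getD _ _ _ _ hp] at hne
      exact hne (h2 e b ⟨s, hU⟩)

/-- there is a sequence in the class -/
theorem exists_good : ∃ G : ℕ → Bool, ∀ s, ¬ Bad (pre G s) := by
  classical
  let H : ℕ → ℕ → Bool := fun k => Nat.rec (motive := fun _ => ℕ → Bool) (fun _ => false)
    (fun k Hk z => if (Nat.unpair z).1 = k + 1 then decide (UU (mask k Hk) (Nat.unpair z).2 true)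
      else Hk z) k
  have hH : ∀ k z, H (k + 1) z = if (Nat.unpair z).1 = k + 1 then
      decide (UU (mask k (H k)) (Nat.unpair z).2 true) else H k z := fun k z => rfl
  have hst : ∀ k z, (Nat.unpair z).1 ≤ k → H k z = H (Nat.unpair z).1 z := by
    intro k z hk
    induction k with
    | zero =>
      have : (Nat.unpair z).1 = 0 := by omega
      rw [this]
    | succ k ih =>
      rcases Nat.lt_or_ge (Nat.unpair z).1 (k + 1) with h | h
      · rw [hH, if_neg (by omega)]
        exact ih (by omega)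
      · have : (Nat.unpair z).1 = k + 1 := by omega
        rw [this]
  let G1 : ℕ → Bool := fun z => H (Nat.unpair z).1 z
  let G : ℕ → Bool := fun z => if (Nat.unpair z).1 = 0 then
    decide (UU (maskI G1) (Nat.unpair z).2 true) else G1 z
  have hm : ∀ k, mask k G = mask k (H k) := by
    intro k
    funext z
    unfold mask
    by_cases hz : 1 ≤ (Nat.unpair z).1 ∧ (Nat.unpair z).1 ≤ k
    · rw [if_pos hz, if_pos hz, hst k z hz.2]
      simp only [G, G1]
      rw [if_neg (by omega)]
    · rw [if_neg hz, if_neg hz]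
  have hmI : maskI G = maskI G1 := by
    funext z
    unfold maskI
    by_cases hz : 1 ≤ (Nat.unpair z).1
    · rw [if_pos hz, if_pos hz]
      simp only [G]
      rw [if_neg (by omega)]
    · rw [if_neg hz, if_neg hz]
  refine ⟨G, (bad_iff G).2 ⟨fun k e b hU => ?_, fun e b hU => ?_⟩⟩
  · have h1 : G (Nat.pair (k + 1) e) = decide (UU (mask k (H k)) e true) := by
      simp only [G, G1, Nat.unpair_pair]
      rw [if_neg (by omega), hH]
      simp
    rw [hm] at hU
    rw [h1]
    cases b
    · rw [decide_eq_false_iff_not]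
      intro h2
      exact absurd (UU_unique hU h2) (by simp)
    · simpa using hU
  · have h1 : G (Nat.pair 0 e) = decide (UU (maskI G1) e true) := by
      simp only [G, Nat.unpair_pair]
      simp
    rw [hmI] at hU
    rw [h1]
    cases b
    · rw [decide_eq_false_iff_not]
      intro h2
      exact absurd (UU_unique hU h2) (by simp)
    · simpa using hU

end Pool.Agent.TH748.MU
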